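import Pool.Agent.Q47.FF.Stm

/-!
# The colouring of the pairs of indices
-/

set_option autoImplicit false

namespace Q47.FF

theorem t_col : S_col := by
  intro q k hk
  classical
  rcases Nat.eq_zero_or_pos q with h0 | h0
  · subst h0
    exact ⟨fun _ => 1, fun _ i => i.elim0, fun _ i => i.elim0, fun h => ⟨⟨0, h⟩, rfl⟩⟩
  have : NeZero q := ⟨by omega⟩
  refine ⟨fun j => if h : (j : ℕ) < q then Equiv.subLeft (⟨j, h⟩ : Fin q) else 1, ?_, ?_, ?_⟩
  · intro j i
    by_cases h : (j : ℕ) < q
    · simp only [dif_pos h, Equiv.subLeft_apply, sub_sub_cancel]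
    · simp only [dif_neg h, Equiv.Perm.one_apply]
  · intro b i
    have h1 : ∀ j : Fin k, sg (b i) (b ((if h : (j : ℕ) < q then
        Equiv.subLeft (⟨j, h⟩ : Fin q) else 1) i)) =
        if h : (j : ℕ) < q then sg (b i) (b ((⟨j, h⟩ : Fin q) - i)) else 0 := by
      intro j
      by_cases h : (j : ℕ) < q
      · simp only [dif_pos h, Equiv.subLeft_apply]
      · simp only [dif_neg h, Equiv.Perm.one_apply, sg, lt_self_iff_false, if_false]
    simp only [h1]
    obtain ⟨m, rfl⟩ := Nat.exists_eq_add_of_le hk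
    rw [Fin.sum_univ_add]
    have h2 : ∑ j : Fin m, (if h : ((Fin.natAdd q j : Fin (q + m)) : ℕ) < q then
        sg (b i) (b ((⟨_, h⟩ : Fin q) - i)) else 0) = 0 :=
      Finset.sum_eq_zero fun j _ => dif_neg (by simp)
    have h3 : ∑ j : Fin q, (if h : ((Fin.castAdd m j : Fin (q + m)) : ℕ) < q then
        sg (b i) (b ((⟨_, h⟩ : Fin q) - i)) else 0) = ∑ j : Fin q, sg (b i) (b (j - i)) :=
      Finset.sum_congr rfl fun j _ => by
        have h : ((Fin.castAdd m j : Fin (q + m)) : ℕ) < q := by simp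
        rw [dif_pos h]
        rfl
    have h5 : ∑ j : Fin q, sg (b i) (b (j - i)) = ∑ j : Fin q, sg (b i) (b j) :=
      Equiv.sum_comp (Equiv.subRight i) fun j => sg (b i) (b j)
    rw [h2, h3, add_zero, h5]
    have h4 : ∀ j, sg (b i) (b j) = (if b j < b i then 1 else 0) - if b i < b j then 1 else 0 := by
      intro j
      rw [sg]
      split_ifs <;> first | omega | rfl
    simp only [h4, Finset.sum_sub_distrib, Finset.sum_boole]
    rw [FL.anti]
    ring
  · intro h
    refine ⟨⟨q, h⟩, ?_⟩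
    simp only [lt_self_iff_false, dif_neg, not_false_eq_true]

end Q47.FF
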