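import Pool.Agent.Q47.FJ.DefsT
import Pool.Agent.Q47.FL.Defs

/-!
# Flag bundles over complex manifolds: definitions

Let `X` be a complex manifold, let `c_i`, `i < q`, be line bundles on `X`, and let the weakly
increasing function `b : Fin q → ℕ` describe a type of partial flags: the number of the `j` with
`b j ≤ l` is the dimension of the `l`-th member of the flag. The bundle `Y → X` of the flags of this
type in the fibres of the vector bundle `⊕ c_i` is the quotient of the set of all `(p, g)`, `p` a point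
of a chart, `g ∈ GL_q`, by `(p, g) ~ (φ(p), (c_i(p) g_{ij})_{ij})` for the transition maps `φ` and by
the group `P` of all invertible `p` with `p_{ij} = 0` for `b j < b i`, which acts on `GL_q` from the
right: the point `(p, g)` is the flag whose member number `l` is spanned by the columns `j` of `g` with
`b j ≤ l`. All fibres are isomorphic to the flag variety `GL_q / P`. (For `b = (0, 1, ..., 1)` the
bundle `Y` is the projective bundle of lines in `⊕ c_i`, for `b = (0, 1, ..., q - 1)` it is the bundle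
of complete flags.)
-/

set_option autoImplicit false

namespace Q47.FF

open MvPolynomial Q47.FJ

variable {E : Type*} [NormedAddCommGroup E] [NormedSpace ℂ E] {I K : Type*} {X : Atlas E I K} {q : ℕ}

/-- The matrix `g` in the next chart: the row `i` is multiplied by the value of the cocycle of the
line bundle `c i`. -/
noncomputable def trans (c : Fin q → LB X) (k : K) (z : E) (g : Matrix (Fin q) (Fin q) ℂ) :
    Matrix (Fin q) (Fin q) ℂ :=
  Matrix.of fun i j => FJ.ev (c i) k z * g i j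

/-- `F` is a global section of the line bundle `O_Y(d; M)` on `Y`: a polynomial in the entries of the
matrix `g`, whose coefficients are holomorphic functions on the charts, semi-invariant under `P` of the
weight `d` (the block `b = l` of `p ∈ P` acts by `det ^ d_l`). -/
structure IsSecF (b : Fin q → ℕ) (c : Fin q → LB X) (d : ℕ → ℕ) (M : LB X)
    (F : I → E → MvPolynomial (Fin q × Fin q) ℂ) : Prop where
  holo : ∀ i α, DifferentiableOn ℂ (fun z => coeff α (F i z)) (X.U i)
  semi : ∀ i, ∀ z ∈ X.U i, FL.IsSemiInvariant b d (F i z)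
  eq : ∀ k, ∀ z ∈ X.D k, ∀ g : Matrix (Fin q) (Fin q) ℂ,
    FL.ev (trans c k z g) (F (X.t k) (X.φ k z)) = FJ.ev M k z * FL.ev g (F (X.s k) z)

/-- `p` is in the Lie algebra of `P`. -/
def IsP (b : Fin q → ℕ) (p : Matrix (Fin q) (Fin q) ℂ) : Prop := ∀ i j, b j < b i → p i j = 0

/-- The points `(z, g)` over the chart `i` and `(z', g')` over the chart `i'` are the same point of
`Y`. -/
def SameF (X : Atlas E I K) (b : Fin q → ℕ) (c : Fin q → LB X) (i : I) (z : E)
    (g : Matrix (Fin q) (Fin q) ℂ) (i' : I) (z' : E) (g' : Matrix (Fin q) (Fin q) ℂ) : Prop :=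
  ∃ k, X.s k = i ∧ X.t k = i' ∧ z ∈ X.D k ∧ X.φ k z = z' ∧
    ∃ p : Matrix (Fin q) (Fin q) ℂ, p.det ≠ 0 ∧ IsP b p ∧ g' = trans c k z (g * p)

/-- The vector `(w, ξ)` at the point `(z, g)` is zero as a tangent vector of `Y`: it is tangent to
the orbit of `P`. -/
def ZeroF (b : Fin q → ℕ) (g : Matrix (Fin q) (Fin q) ℂ) (w : E) (ξ : Matrix (Fin q) (Fin q) ℂ) :
    Prop :=
  w = 0 ∧ ∃ τ, IsP b τ ∧ ξ = g * τ

/-- The derivative of the section `F` at the point `(z, g)` over the chart `i`, in the direction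
`(w, ξ)`. -/
noncomputable def dF (F : I → E → MvPolynomial (Fin q × Fin q) ℂ) (i : I) (z : E)
    (g : Matrix (Fin q) (Fin q) ℂ) (w : E) (ξ : Matrix (Fin q) (Fin q) ℂ) : ℂ :=
  deriv (fun τ : ℂ => FL.ev (g + τ • ξ) (F i (z + τ • w))) 0

/-- The line bundle `O_Y(d; M)` is globally generated. -/
def GGF (b : Fin q → ℕ) (c : Fin q → LB X) (d : ℕ → ℕ) (M : LB X) : Prop :=
  ∀ i, ∀ z ∈ X.U i, ∀ g : Matrix (Fin q) (Fin q) ℂ, g.det ≠ 0 →
    ∃ F, IsSecF b c d M F ∧ FL.ev g (F i z) ≠ 0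

/-- The line bundle `O_Y(d; M)` is very ample: it is globally generated, and its sections separate
points and tangent vectors. -/
structure VAF (b : Fin q → ℕ) (c : Fin q → LB X) (d : ℕ → ℕ) (M : LB X) : Prop where
  gg : GGF b c d M
  pts : ∀ i, ∀ z ∈ X.U i, ∀ g : Matrix (Fin q) (Fin q) ℂ, g.det ≠ 0 →
    ∀ i', ∀ z' ∈ X.U i', ∀ g' : Matrix (Fin q) (Fin q) ℂ, g'.det ≠ 0 →
    (∀ F, IsSecF b c d M F → FL.ev g (F i z) = 0 → FL.ev g' (F i' z') = 0) →
      SameF X b c i z g i' z' g'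
  tan : ∀ i, ∀ z ∈ X.U i, ∀ g : Matrix (Fin q) (Fin q) ℂ, g.det ≠ 0 →
    ∀ (w : E) (ξ : Matrix (Fin q) (Fin q) ℂ),
    (∀ F, IsSecF b c d M F → FL.ev g (F i z) = 0 → dF F i z g w ξ = 0) → ZeroF b g w ξ

/-- The line bundle `O_Y(d; M)` is ample. -/
def AmpleF (b : Fin q → ℕ) (c : Fin q → LB X) (d : ℕ → ℕ) (M : LB X) : Prop :=
  ∃ N : ℕ, 1 ≤ N ∧ VAF b c (fun l => N * d l) (M ^ N)

/-- `K_Y + L_1 + ... + L_k` is the line bundle `O_Y(D; K_X ⊗ M_1 ⊗ ... ⊗ M_k)` if
`L_j = O_Y(d_j; M_j)`, since `K_Y = O_Y(-anti; K_X)`, see `FL.anti`. -/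
def IsAdjoint (b : Fin q → ℕ) {k : ℕ} (d : Fin k → ℕ → ℕ) (D : ℕ → ℕ) : Prop :=
  ∀ i, (D (b i) : ℤ) = ∑ j, (d j (b i) : ℤ) - FL.anti b i

end Q47.FF
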