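import Pool.Agent.Q47.FF.Red

/-!
# The restriction of ample line bundles to the sections given by permutations
-/

set_option autoImplicit false

namespace Q47.FF

open MvPolynomial Q47.FJ

section

variable {q : ℕ}

/-- Scaling of all columns. -/
theorem scale_all {b : Fin q → ℕ} {D : ℕ → ℕ} {P : MvPolynomial (Fin q × Fin q) ℂ}
    (hP : FL.IsSemiInvariant b D P) (g : Matrix (Fin q) (Fin q) ℂ) (t : Fin q → ℂ) :
    FL.ev (Matrix.of fun i j => t j * g i j) P = (∏ j, t j ^ D (b j)) * FL.ev g P := by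
  classical
  have key : ∀ S : Finset (Fin q), FL.ev (Matrix.of fun i j => (if j ∈ S then t j else 1) * g i j) P
      = (∏ j ∈ S, t j ^ D (b j)) * FL.ev g P := by
    intro S
    induction S using Finset.induction_on with
    | empty =>
      rw [Finset.prod_empty, one_mul]
      congr 1
      ext i j
      simp
    | insert s S hs ih =>
      rw [Finset.prod_insert hs, mul_assoc, ← ih, ← hP.scale]
      congr 1
      ext i j
      rw [Matrix.updateCol_apply]
      by_cases hj : j = s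
      · subst hj
        simp [hs]
      · simp [hj]
  have h1 := key Finset.univ
  simpa using h1

/-- Exponents of semi-invariant polynomials are bounded. -/
theorem ev_eq_sum {b : Fin q → ℕ} {D : ℕ → ℕ} {P : MvPolynomial (Fin q × Fin q) ℂ}
    (hP : FL.IsSemiInvariant b D P) (g : Matrix (Fin q) (Fin q) ℂ) :
    FL.ev g P = ∑ α ∈ Finset.Iic (Finsupp.equivFunOnFinite.symm fun x : Fin q × Fin q => D (b x.2)),
      coeff α P * ∏ x : Fin q × Fin q, g x.1 x.2 ^ α x := by
  classical
  rw [FL.ev, eval_eq']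
  refine Finset.sum_subset (fun α hα => ?_) fun α _ hα => ?_
  · rw [Finset.mem_Iic]
    intro x
    have h1 := FL.col_of_semi hP hα x.2
    change α x ≤ D (b x.2)
    rw [← h1, FL.col]
    exact Finset.single_le_sum (f := fun i => α (i, x.2)) (fun i _ => Nat.zero_le _)
      (Finset.mem_univ x.1)
  · rw [notMem_support_iff.1 hα, zero_mul]

end

variable {E : Type} [NormedAddCommGroup E] [NormedSpace ℂ E] {I K : Type} {X : Atlas E I K}
  {q : ℕ} {b : Fin q → ℕ} {c : Fin q → LB X}

theorem IsSecF.holo_ev {D : ℕ → ℕ} {M : LB X} {F : I → E → MvPolynomial (Fin q × Fin q) ℂ}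
    (hF : IsSecF b c D M F) (g : Matrix (Fin q) (Fin q) ℂ) (i : I) :
    DifferentiableOn ℂ (fun z => FL.ev g (F i z)) (X.U i) := by
  refine DifferentiableOn.congr (f := fun z => ∑ α ∈ Finset.Iic (Finsupp.equivFunOnFinite.symm
    fun x : Fin q × Fin q => D (b x.2)), coeff α (F i z) * ∏ x : Fin q × Fin q, g x.1 x.2 ^ α x)
    (DifferentiableOn.fun_sum fun α _ => (hF.holo i α).mul_const _) fun z hz => ?_
  exact ev_eq_sum (hF.semi i z hz) g

/-- The restriction of a section to the section of `Y → X` given by a permutation. -/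
theorem IsSecF.fix {D : ℕ → ℕ} {M : LB X} {F : I → E → MvPolynomial (Fin q × Fin q) ℂ}
    (hF : IsSecF b c D M F) (w : Equiv.Perm (Fin q)) :
    IsSec (vw M c fun i => (D (b (w.symm i)) : ℤ)) fun i z => FL.ev (FL.pm w) (F i z) where
  holo i := hF.holo_ev _ i
  eq k z hz := by
    have h1 := hF.eq k z hz (FL.pm w)
    have h2 : trans c k z (FL.pm w)
        = Matrix.of fun i j => FJ.ev (c (w j)) k z * FL.pm w i j := by
      ext i j
      simp only [trans, FL.pm, Matrix.of_apply]
      by_cases h : i = w j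
      · rw [h]
      · rw [if_neg h, mul_zero, mul_zero]
    have h3 : ∏ j, FJ.ev (c (w j)) k z ^ D (b j)
        = ∏ i, FJ.ev (c i) k z ^ (D (b (w.symm i)) : ℤ) := by
      rw [← Equiv.prod_comp w fun i => FJ.ev (c i) k z ^ (D (b (w.symm i)) : ℤ)]
      exact Finset.prod_congr rfl fun j _ => by rw [Equiv.symm_apply_apply, zpow_natCast]
    rw [h2, scale_all (hF.semi _ _ (X.maps k z hz)), h3] at h1
    have h4 : ∏ i, FJ.ev (c i) k z ^ (D (b (w.symm i)) : ℤ) ≠ 0 :=
      Finset.prod_ne_zero_iff.2 fun i _ => zpow_ne_zero _ (ev_ne _ _ _)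
    rw [ev_vw]
    refine mul_left_cancel₀ h4 ?_
    rw [h1]
    field_simp

theorem vw_pow (M : LB X) (ν : Fin q → ℤ) (N : ℕ) :
    vw M c ν ^ N = vw (M ^ N) c fun i => N * ν i := by
  simp only [vw, mul_pow, inv_pow, ← Finset.prod_pow]
  congr 2
  exact Finset.prod_congr rfl fun i _ => by rw [mul_comm (N : ℤ), zpow_mul, zpow_natCast]

theorem t_fix : S_fix := by
  intro E _ _ I K X q b c d M h w
  obtain ⟨N, hN, hva⟩ := h
  refine ⟨N, hN, ?_⟩
  rw [vw_pow]
  have hs : ∀ F, IsSecF b c (fun l => N * d l) (M ^ N) F →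
      IsSec (vw (M ^ N) c fun i => (N : ℤ) * (d (b (w.symm i)) : ℤ))
        fun i z => FL.ev (FL.pm w) (F i z) := by
    intro F hF
    have := hF.fix w
    simpa only [Nat.cast_mul] using this
  have hw := FL.pm_det w
  refine ⟨fun i z hz => ?_, fun i z hz i' z' hz' hf => ?_, fun i z hz w₁ hf => ?_⟩
  · obtain ⟨F, hF, hF0⟩ := hva.gg i z hz _ hw
    exact ⟨_, hs F hF, hF0⟩
  · obtain ⟨k, h1, h2, h3, h4, -⟩ := hva.pts i z hz _ hw i' z' hz' _ hw fun F hF hF0 =>
      hf _ (hs F hF) hF0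
    exact ⟨k, h1, h2, h3, h4⟩
  · refine (hva.tan i z hz _ hw w₁ 0 fun F hF hF0 => ?_).1
    have h1 := hf _ (hs F hF) hF0
    have h2 : HasDerivAt (fun τ : ℂ => z + τ • w₁) w₁ 0 := by
      have h3 := ((hasDerivAt_id (0 : ℂ)).smul_const w₁).const_add z
      rwa [one_smul] at h3
    have h4 : HasFDerivAt (fun z => FL.ev (FL.pm w) (F i z))
        (fderiv ℂ (fun z => FL.ev (FL.pm w) (F i z)) z) (z + (0 : ℂ) • w₁) := by
      rw [zero_smul, add_zero]
      exact ((hs F hF).diff hz).hasFDerivAt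
    have h5 := h4.comp_hasDerivAt (0 : ℂ) h2
    rw [h1] at h5
    have h6 : (fun τ : ℂ => FL.ev (FL.pm w + τ • (0 : Matrix (Fin q) (Fin q) ℂ)) (F i (z + τ • w₁)))
        = (fun z => FL.ev (FL.pm w) (F i z)) ∘ fun τ : ℂ => z + τ • w₁ := by
      funext τ
      rw [smul_zero, add_zero]
      rfl
    rw [dF, h6]
    exact h5.deriv

end Q47.FF
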