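import Pool.Agent.Q47.FF.Va
import Pool.Agent.Q47.FF.Fix
import Pool.Agent.Q47.FF.Col
import Pool.Agent.Q47.FJ.Main

/-!
# Fujita's conjectures for flag bundles
-/

set_option autoImplicit false

namespace Q47.FF

open MvPolynomial Q47.FJ

section Red

variable {E : Type} [NormedAddCommGroup E] [NormedSpace ℂ E] {I K : Type} {X : Atlas E I K}
  {q : ℕ} {b : Fin q → ℕ} {c : Fin q → LB X}

/-- The adjoint line bundle has nonnegative weights. -/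
theorem adj_exists (H2 : S_strict) (hb : Monotone b) {k : ℕ} (hk : q ≤ k) {d : Fin k → ℕ → ℕ}
    {M : Fin k → LB X} (h : ∀ j, AmpleF b c (d j) (M j)) {i₀ : I} {z₀ : E} (hz₀ : z₀ ∈ X.U i₀) :
    ∃ D, IsAdjoint b d D :=
  exists_adj hk hb fun j i i' => H2 (h j) hz₀ i i'

/-- Global generation of the adjoint line bundles. -/
theorem gg_red (H2 : S_strict) (H3 : S_match) (hb : Monotone b) (Pic : Subgroup (LB X))
    (hc : ∀ i, c i ∈ Pic) {κ : LB X} (hκ : IsCanonical κ) {k : ℕ} (hk : q ≤ k)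
    {d : Fin k → ℕ → ℕ} {M : Fin k → LB X} (hM : ∀ j, M j ∈ Pic)
    (h : ∀ j, AmpleF b c (d j) (M j))
    (hX : ∀ κ : LB X, IsCanonical κ → ∀ A : Fin k → LB X, (∀ j, A j ∈ Pic ∧ IsAmple (A j)) →
      GG (κ * ∏ j, A j)) {D : ℕ → ℕ} (hD : IsAdjoint b d D) : GGF b c D (κ * ∏ j, M j) :=
  gg_adj t_fix H2 H3 t_col hb hc κ hk hM h hD (hX κ hκ)

/-- Very ampleness of the adjoint line bundles. -/
theorem va_red (H2 : S_strict) (H3 : S_match) (H4 : S_LU) (H5 : S_TLU) (hb : Monotone b)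
    (Pic : Subgroup (LB X)) (hc : ∀ i, c i ∈ Pic) {κ : LB X} (hκ : IsCanonical κ) {k : ℕ}
    (hk : q + 1 ≤ k) {d : Fin k → ℕ → ℕ} {M : Fin k → LB X} (hM : ∀ j, M j ∈ Pic)
    (h : ∀ j, AmpleF b c (d j) (M j))
    (hX : ∀ κ : LB X, IsCanonical κ → ∀ A : Fin k → LB X, (∀ j, A j ∈ Pic ∧ IsAmple (A j)) →
      VA (κ * ∏ j, A j)) {D : ℕ → ℕ} (hD : IsAdjoint b d D) : VAF b c D (κ * ∏ j, M j) :=
  va_adj t_fix H2 H3 H4 H5 t_col hb hc κ hk hM h hD (hX κ hκ)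

end Red

variable {V : Type} [NormedAddCommGroup V] [NormedSpace ℂ V] [FiniteDimensional ℂ V]
  {Λ : AddSubgroup V} {q : ℕ} {b : Fin q → ℕ} {c : Fin q → LB (torus Λ)}

/-- Freeness for flag bundles over complex tori. -/
theorem gg_main (H2 : S_strict) (H3 : S_match) (hd : DiscreteTopology Λ)
    (hs : Submodule.span ℝ (Λ : Set V) = ⊤) (hb : Monotone b) (hc : ∀ i, ∃ H, IsChern (c i) H)
    {κ : LB (torus Λ)} (hκ : IsCanonical κ) {k : ℕ} (hk : q ≤ k) (hk2 : 2 ≤ k)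
    {d : Fin k → ℕ → ℕ} {M : Fin k → LB (torus Λ)} (hM : ∀ j, ∃ H, IsChern (M j) H)
    (h : ∀ j, AmpleF b c (d j) (M j)) {D : ℕ → ℕ} (hD : IsAdjoint b d D) :
    GGF b c D (κ * ∏ j, M j) :=
  gg_red H2 H3 hb (cpic Λ) hc hκ hk hM h (fun κ hκ A hA => by
    rw [canonical_torus hκ, one_mul]
    exact torus_gg hd hs hk2 hA) hD

/-- Very ampleness for flag bundles over complex tori. -/
theorem va_main (H2 : S_strict) (H3 : S_match) (H4 : S_LU) (H5 : S_TLU) (hd : DiscreteTopology Λ)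
    (hs : Submodule.span ℝ (Λ : Set V) = ⊤) (hb : Monotone b) (hc : ∀ i, ∃ H, IsChern (c i) H)
    {κ : LB (torus Λ)} (hκ : IsCanonical κ) {k : ℕ} (hk : q + 1 ≤ k) (hk3 : 3 ≤ k)
    {d : Fin k → ℕ → ℕ} {M : Fin k → LB (torus Λ)} (hM : ∀ j, ∃ H, IsChern (M j) H)
    (h : ∀ j, AmpleF b c (d j) (M j)) {D : ℕ → ℕ} (hD : IsAdjoint b d D) :
    VAF b c D (κ * ∏ j, M j) :=
  va_red H2 H3 H4 H5 hb (cpic Λ) hc hκ hk hM h (fun κ hκ A hA => by
    rw [canonical_torus hκ, one_mul]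
    exact torus_va hd hs hk3 hA) hD

end Q47.FF
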