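import Pool.Agent.Q47.FF.Fix

/-!
# Root shifts along an involution
-/

set_option autoImplicit false

namespace Q47.FF

open Q47.FJ

variable {E : Type} [NormedAddCommGroup E] [NormedSpace ℂ E] {I K : Type} {X : Atlas E I K}
  {q : ℕ} {b : Fin q → ℕ} {c : Fin q → LB X}

theorem vw_mul (M N : LB X) (ν ν' : Fin q → ℤ) :
    vw M c ν * vw N c ν' = vw (M * N) c fun i => ν i + ν' i := by
  simp only [vw, zpow_add, Finset.prod_mul_distrib, mul_inv]
  exact mul_mul_mul_comm _ _ _ _

/-- One step. -/
theorem amp_step {M : LB X} {ν : Fin q → ℤ} (h : ∀ w : Equiv.Perm (Fin q),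
    IsAmple (vw M c fun i => ν (w i))) {x y : Fin q} (hxy : ν y < ν x) (w : Equiv.Perm (Fin q)) :
    IsAmple (vw M c fun i => ν (w i) - (if w i = x then 1 else 0) + if w i = y then 1 else 0) := by
  have hne : x ≠ y := fun e => by rw [e] at hxy; exact lt_irrefl _ hxy
  obtain ⟨t, ht⟩ : ∃ t : ℕ, ν x - ν y = t + 1 := by
    refine ⟨(ν x - ν y - 1).toNat, ?_⟩
    rw [Int.toNat_of_nonneg (by omega)]
    ring
  refine IsAmple.of_pow (m := t + 1) (by omega) ?_
  have h1 : vw M c (fun i => ν (w i) - (if w i = x then 1 else 0) + if w i = y then 1 else 0)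
      ^ (t + 1) = vw M c (fun i => ν (w i)) ^ t *
        vw M c fun i => ν ((w.trans (Equiv.swap x y)) i) := by
    rw [vw_pow, vw_pow, vw_mul, ← pow_succ]
    congr 1
    funext i
    rw [Equiv.trans_apply]
    push_cast
    by_cases hx : w i = x
    · rw [hx, if_pos rfl, if_neg hne, Equiv.swap_apply_left]
      linarith
    · by_cases hy : w i = y
      · rw [hy, if_neg hne.symm, if_pos rfl, Equiv.swap_apply_right]
        linarith
      · rw [if_neg hx, if_neg hy, Equiv.swap_apply_of_ne_of_ne hx hy]
        ring
  rw [h1]
  exact (h w).powMul (h _) t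

theorem t_match : S_match := by
  intro E _ _ I K X q b c M l hl hA π hπ
  classical
  have key : ∀ n : ℕ, ∀ T : Finset (Fin q), T.card = n → (∀ i ∈ T, π i ∈ T) →
      ∀ w : Equiv.Perm (Fin q), IsAmple (vw M c fun i =>
        l (w i) + if w i ∈ T then sg (b (w i)) (b (π (w i))) else 0) := by
    intro n
    induction n using Nat.strong_induction_on with
    | _ n ih =>
      intro T hT hπT
      rcases T.eq_empty_or_nonempty with rfl | ⟨a, ha⟩
      · intro w
        simpa using hA w
      -- remove the pair
      have hsub : ((T.erase a).erase (π a)) ⊆ T :=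
        (Finset.erase_subset _ _).trans (Finset.erase_subset _ _)
      have hcard : ((T.erase a).erase (π a)).card < n := by
        rw [← hT]
        refine Finset.card_lt_card ⟨hsub, fun h => ?_⟩
        have := h ha
        simp at this
      have hst : ∀ i ∈ (T.erase a).erase (π a), π i ∈ (T.erase a).erase (π a) := by
        intro i hi
        rw [Finset.mem_erase, Finset.mem_erase] at hi ⊢
        refine ⟨fun e => hi.2.1 (π.injective e), fun e => hi.1 ?_, hπT i hi.2.2⟩
        rw [← e, hπ]
      have h1 := ih _ hcard _ rfl hst
      -- the pair x, y with b x ≤ b y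
      have h2 : ∀ x y : Fin q, ((x = a ∧ y = π a) ∨ (x = π a ∧ y = a)) → b x < b y →
          ∀ w : Equiv.Perm (Fin q), IsAmple (vw M c fun i =>
            l (w i) + if w i ∈ T then sg (b (w i)) (b (π (w i))) else 0) := by
        intro x y hxy hb w
        have hπx : π x = y := by
          rcases hxy with ⟨rfl, rfl⟩ | ⟨rfl, rfl⟩
          · rfl
          · exact hπ _
        have hπy : π y = x := by rw [← hπx, hπ]
        have hxT : x ∈ T := by
          rcases hxy with ⟨rfl, rfl⟩ | ⟨rfl, rfl⟩
          · exact ha
          · exact hπT _ ha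
        have hyT : y ∈ T := by rw [← hπx]; exact hπT _ hxT
        have hx' : x ∉ (T.erase a).erase (π a) := by
          rcases hxy with ⟨rfl, rfl⟩ | ⟨rfl, rfl⟩ <;> simp
        have hy' : y ∉ (T.erase a).erase (π a) := by
          rcases hxy with ⟨rfl, rfl⟩ | ⟨rfl, rfl⟩ <;> simp
        have h3 := amp_step (ν := fun i => l i + if i ∈ (T.erase a).erase (π a) then
          sg (b i) (b (π i)) else 0) h1 (x := x) (y := y) (by
            simp only [if_neg hx', if_neg hy', add_zero]
            exact hl x y hb) w
        refine Eq.mp ?_ h3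
        congr 2
        funext i
        by_cases hix : w i = x
        · have hne : x ≠ y := fun e => by rw [e] at hb; exact lt_irrefl _ hb
          rw [hix, if_neg hx', if_pos rfl, if_neg hne, if_pos hxT, hπx, sg, if_pos hb]
          ring
        · by_cases hiy : w i = y
          · have hne : y ≠ x := fun e => by rw [e] at hb; exact lt_irrefl _ hb
            rw [hiy, if_neg hy', if_neg hne, if_pos rfl, if_pos hyT, hπy, sg,
              if_neg (not_lt.2 hb.le), if_pos hb]
            ring
          · have h4 : w i ∈ (T.erase a).erase (π a) ↔ w i ∈ T := by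
              rw [Finset.mem_erase, Finset.mem_erase]
              constructor
              · exact fun h => h.2.2
              · intro h
                rcases hxy with ⟨rfl, rfl⟩ | ⟨rfl, rfl⟩
                · exact ⟨hiy, hix, h⟩
                · exact ⟨hix, hiy, h⟩
            simp only [h4]
            rw [if_neg hix, if_neg hiy]
            ring
      rcases lt_trichotomy (b a) (b (π a)) with h | h | h
      · exact h2 a (π a) (Or.inl ⟨rfl, rfl⟩) h
      · intro w
        refine Eq.mp ?_ (h1 w)
        congr 2
        funext i
        by_cases hia : w i = a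
        · rw [hia, if_neg (by simp), if_pos ha, sg, if_neg (by omega), if_neg (by omega)]
        · by_cases hip : w i = π a
          · rw [hip, if_neg (by simp), if_pos (hπT _ ha), hπ, sg, if_neg (by omega),
              if_neg (by omega)]
          · have h4 : w i ∈ (T.erase a).erase (π a) ↔ w i ∈ T := by
              rw [Finset.mem_erase, Finset.mem_erase]
              exact ⟨fun h => h.2.2, fun h => ⟨hip, hia, h⟩⟩
            simp only [h4]
      · exact h2 (π a) a (Or.inr ⟨rfl, rfl⟩) h
  intro w
  have := key _ Finset.univ rfl (fun i _ => Finset.mem_univ _) w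
  simpa using this

end Q47.FF
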