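import Pool.Agent.Q47.FF.Sec

/-!
# Adjoint line bundles on flag bundles: the reduction to the base
-/

set_option autoImplicit false

namespace Q47.FF

open MvPolynomial Q47.FJ

variable {E : Type} [NormedAddCommGroup E] [NormedSpace ℂ E] {I K : Type} {X : Atlas E I K}
  {q : ℕ} {b : Fin q → ℕ} {c : Fin q → LB X}

theorem ev_zpow (M : LB X) (m : ℤ) (k : K) (z : E) : FJ.ev (M ^ m) k z = FJ.ev M k z ^ m := by
  cases m with
  | ofNat m => rw [Int.ofNat_eq_natCast, zpow_natCast, zpow_natCast, FJ.ev_pow]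
  | negSucc m => rw [zpow_negSucc, zpow_negSucc, FJ.ev_inv, FJ.ev_pow]

theorem ev_vw (M : LB X) (ν : Fin q → ℤ) (k : K) (z : E) :
    FJ.ev (vw M c ν) k z = FJ.ev M k z * (∏ i, FJ.ev (c i) k z ^ ν i)⁻¹ := by
  rw [vw, FJ.ev_mul, FJ.ev_inv, FJ.ev_prod]
  simp only [ev_zpow]

theorem vw_prod {k : ℕ} (κ : LB X) (M : Fin k → LB X) (ν : Fin k → Fin q → ℤ) :
    κ * ∏ j, vw (M j) c (ν j) = vw (κ * ∏ j, M j) c fun i => ∑ j, ν j i := by
  simp only [vw, Finset.prod_mul_distrib, Finset.prod_inv_distrib, mul_assoc]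
  congr 3
  rw [Finset.prod_comm]
  refine Finset.prod_congr rfl fun i _ => ?_
  induction (Finset.univ : Finset (Fin k)) using Finset.induction_on with
  | empty => simp
  | insert j T hj ih => rw [Finset.prod_insert hj, Finset.sum_insert hj, ih, zpow_add]

theorem vw_mem {Pic : Subgroup (LB X)} {M : LB X} (hM : M ∈ Pic) (hc : ∀ i, c i ∈ Pic)
    (ν : Fin q → ℤ) : vw M c ν ∈ Pic :=
  Pic.mul_mem hM (Pic.inv_mem (Pic.prod_mem fun i _ => Pic.zpow_mem (hc i) _))

/-- Sections given by a semi-invariant polynomial. -/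
theorem mk_sec {D : ℕ → ℕ} {N : LB X} {P : MvPolynomial (Fin q × Fin q) ℂ}
    (hP : FL.IsSemiInvariant b D P) {ν : Fin q → ℤ}
    (hl : ∀ a : Fin q → ℂ, (∀ s, a s ≠ 0) → ∀ g, FL.ev (Matrix.of fun i j => a i * g i j) P =
      (∏ r, a r ^ ν r) * FL.ev g P) {f : I → E → ℂ} (hf : IsSec (vw N c ν) f) :
    IsSecF b c D N fun i z => C (f i z) * P where
  holo i α := by
    simp only [coeff_C_mul]
    exact (hf.holo i).mul_const _
  semi i z _ := semi_C_mul hP _
  eq k z hz g := by
    have h1 : ∏ r, FJ.ev (c r) k z ^ ν r ≠ 0 :=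
      Finset.prod_ne_zero_iff.2 fun i _ => zpow_ne_zero _ (ev_ne _ _ _)
    rw [ev_mul', ev_mul', ev_C, ev_C, hf.eq k z hz, ev_vw, trans,
      hl _ (fun s => ev_ne _ _ _)]
    field_simp

theorem IsSecF.comb {M : LB X} {d : ℕ → ℕ} {F G : I → E → MvPolynomial (Fin q × Fin q) ℂ}
    (hF : IsSecF b c d M F) (hG : IsSecF b c d M G) (a a' : ℂ) :
    IsSecF b c d M fun i z => C a * F i z - C a' * G i z where
  holo i α := by
    simp only [coeff_sub, coeff_C_mul]
    exact ((hF.holo i α).const_mul a).sub ((hG.holo i α).const_mul a')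
  semi i z hz := semi_sub (semi_C_mul (hF.semi i z hz) _) (semi_C_mul (hG.semi i z hz) _)
  eq k z hz g := by
    simp only [ev_sub, ev_mul', ev_C]
    rw [hF.eq k z hz g, hG.eq k z hz g]
    ring

theorem GGF.prop {d : ℕ → ℕ} {M : LB X} (h : GGF b c d M) {i i' : I} {z z' : E}
    {g g' : Matrix (Fin q) (Fin q) ℂ} (hz : z ∈ X.U i) (hg : g.det ≠ 0) (hz' : z' ∈ X.U i')
    (hg' : g'.det ≠ 0)
    (H : ∀ F, IsSecF b c d M F → FL.ev g (F i z) = 0 → FL.ev g' (F i' z') = 0) :
    ∃ μ : ℂ, μ ≠ 0 ∧ ∀ F, IsSecF b c d M F → FL.ev g' (F i' z') = μ * FL.ev g (F i z) := by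
  obtain ⟨f, hf, hf0⟩ := h i z hz g hg
  have h1 : ∀ G, IsSecF b c d M G → FL.ev g' (G i' z') =
      FL.ev g' (f i' z') / FL.ev g (f i z) * FL.ev g (G i z) := fun G hG => by
    have h2 := H _ (hG.comb hf (FL.ev g (f i z)) (FL.ev g (G i z))) (by
      simp only [ev_sub, ev_mul', ev_C]
      ring)
    simp only [ev_sub, ev_mul', ev_C] at h2
    field_simp
    linear_combination h2
  refine ⟨_, fun h0 => ?_, h1⟩
  obtain ⟨G, hG, hG0⟩ := h i' z' hz' g' hg'
  exact hG0 (by rw [h1 G hG, h0, zero_mul])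

theorem left_pr' {D : ℕ → ℕ} (hl : Antitone fun s => D (b s)) (w : Equiv.Perm (Fin q))
    (a : Fin q → ℂ) (g : Matrix (Fin q) (Fin q) ℂ) :
    FL.ev (Matrix.of fun i j => a i * g i j) (FL.pr w fun s => D (b s)) =
      (∏ r, a r ^ (D (b (w.symm r)) : ℤ)) * FL.ev g (FL.pr w fun s => D (b s)) := by
  rw [FL.left_pr hl]
  congr 1
  rw [← Equiv.prod_comp w fun r => a r ^ (D (b (w.symm r)) : ℤ)]
  exact Finset.prod_congr rfl fun s _ => by rw [Equiv.symm_apply_apply, zpow_natCast]

theorem left_nx' (hb : Monotone b) {D : ℕ → ℕ} (hD : ∀ i j, b i < b j → D (b j) < D (b i))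
    (w : Equiv.Perm (Fin q)) {i j : Fin q} (hij : b j < b i) (a : Fin q → ℂ) (ha : ∀ s, a s ≠ 0)
    (g : Matrix (Fin q) (Fin q) ℂ) :
    FL.ev (Matrix.of fun i j => a i * g i j) (nx b D w i j) =
      (∏ r, a r ^ ((D (b (w.symm r)) : ℤ) - (if w.symm r = j then 1 else 0)
        + if w.symm r = i then 1 else 0)) * FL.ev g (nx b D w i j) := by
  rw [left_nx hb hD w hij a ha]
  congr 1
  rw [← Equiv.prod_comp w fun r => a r ^ ((D (b (w.symm r)) : ℤ) -
    (if w.symm r = j then 1 else 0) + if w.symm r = i then 1 else 0)]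
  exact Finset.prod_congr rfl fun s _ => by rw [Equiv.symm_apply_apply]

/-! ### The weights -/

theorem anti_step (hb : Monotone b) {s s' : Fin q} (hs : (s : ℕ) + 1 = s') :
    FL.anti b s - FL.anti b s' ≤ q := by
  classical
  have h1 : (Finset.univ.filter fun k => b s < b k).card + (Finset.univ.filter fun k => b k < b s').card
      ≤ q + ((Finset.univ.filter fun k => b s' < b k).card
        + (Finset.univ.filter fun k => b k < b s).card) := by
    have h2 : (Finset.univ.filter fun k => b s < b k) ∩ (Finset.univ.filter fun k => b k < b s')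
        = ∅ := by
      rw [Finset.eq_empty_iff_forall_notMem]
      intro k hk
      rw [Finset.mem_inter, Finset.mem_filter, Finset.mem_filter] at hk
      rcases Nat.lt_or_ge s k with h3 | h3
      · have h4 : s' ≤ k := by rw [Fin.le_def]; omega
        exact absurd (hb h4) (not_le.2 hk.2.2)
      · exact absurd (hb (show k ≤ s from h3)) (not_le.2 hk.1.2)
    have h3 := Finset.card_union_add_card_inter (Finset.univ.filter fun k => b s < b k)
      (Finset.univ.filter fun k => b k < b s')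
    rw [h2, Finset.card_empty, add_zero] at h3
    have h4 := Finset.card_le_univ ((Finset.univ.filter fun k => b s < b k) ∪
      (Finset.univ.filter fun k => b k < b s'))
    rw [Fintype.card_fin] at h4
    omega
  rw [FL.anti, FL.anti]
  omega

/-- The weight of the adjoint line bundle. -/
def gw {q : ℕ} (b : Fin q → ℕ) {k : ℕ} (d : Fin k → ℕ → ℕ) (s : Fin q) : ℤ :=
  ∑ j, (d j (b s) : ℤ) - FL.anti b s

theorem gw_congr {k : ℕ} (d : Fin k → ℕ → ℕ) {s s' : Fin q} (h : b s = b s') :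
    gw b d s = gw b d s' := by
  rw [gw, gw, FL.anti, FL.anti, h]

theorem gw_step {k : ℕ} (hb : Monotone b) {d : Fin k → ℕ → ℕ}
    (hd : ∀ j i i', b i < b i' → d j (b i') < d j (b i))
    {s s' : Fin q} (hs : (s : ℕ) + 1 = s') (h : b s < b s') : gw b d s' + k ≤ gw b d s + q := by
  have h3 := anti_step hb hs
  have h4 : ∑ j, ((d j (b s') : ℤ) + 1) ≤ ∑ j, (d j (b s) : ℤ) :=
    Finset.sum_le_sum fun j _ => by
      have := hd j s s' h
      exact_mod_cast this
  rw [Finset.sum_add_distrib, Finset.sum_const, Finset.card_univ, Fintype.card_fin] at h4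
  simp only [nsmul_eq_mul, mul_one] at h4
  rw [gw, gw]
  linarith

theorem gw_anti {k : ℕ} (hk : q ≤ k) (hb : Monotone b) {d : Fin k → ℕ → ℕ}
    (hd : ∀ j i i', b i < b i' → d j (b i') < d j (b i)) : Antitone (gw b d) := by
  have hk' : (q : ℤ) ≤ k := by exact_mod_cast hk
  have key : ∀ m : ℕ, ∀ s s' : Fin q, (s : ℕ) + m = s' → gw b d s' ≤ gw b d s := by
    intro m
    induction m with
    | zero =>
      intro s s' h
      have : s = s' := Fin.ext (by omega)
      rw [this]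
    | succ m ih =>
      intro s s' h
      have h1 := s'.2
      have h2 := ih s ⟨s + m, by omega⟩ rfl
      have h3 : ((⟨s + m, by omega⟩ : Fin q) : ℕ) + 1 = s' := by simp only; omega
      have h4 : b ⟨s + m, by omega⟩ ≤ b s' := hb (by rw [Fin.le_def]; simp only; omega)
      rcases lt_or_eq_of_le h4 with h5 | h5
      · have := gw_step hb hd h3 h5
        linarith
      · rw [← gw_congr d h5]
        exact h2
  intro s s' h
  exact key (s' - s) s s' (by
    have : (s : ℕ) ≤ s' := h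
    omega)

theorem gw_strict {k : ℕ} (hk : q < k) (hb : Monotone b) {d : Fin k → ℕ → ℕ}
    (hd : ∀ j i i', b i < b i' → d j (b i') < d j (b i)) :
    ∀ i j, b i < b j → gw b d j < gw b d i := by
  have ha := gw_anti hk.le hb hd
  have hk' : (q : ℤ) < k := by exact_mod_cast hk
  have key : ∀ m : ℕ, ∀ s s' : Fin q, (s : ℕ) + m = s' → b s < b s' → gw b d s' < gw b d s := by
    intro m
    induction m with
    | zero =>
      intro s s' h hlt
      have : s = s' := Fin.ext (by omega)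
      rw [this] at hlt
      exact absurd hlt (lt_irrefl _)
    | succ m ih =>
      intro s s' h hlt
      have h1 := s'.2
      have h3 : ((⟨s + m, by omega⟩ : Fin q) : ℕ) + 1 = s' := by simp only; omega
      have h4 : b ⟨s + m, by omega⟩ ≤ b s' := hb (by rw [Fin.le_def]; simp only; omega)
      have h6 : gw b d ⟨s + m, by omega⟩ ≤ gw b d s := ha (by rw [Fin.le_def]; simp only; omega)
      rcases lt_or_eq_of_le h4 with h5 | h5
      · have := gw_step hb hd h3 h5
        linarith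
      · rw [← gw_congr d h5]
        rw [← h5] at hlt
        exact ih s _ rfl hlt
  intro i j hij
  have hlt : i < j := by
    by_contra h
    exact absurd (hb (not_lt.1 h)) (not_le.2 hij)
  exact key (j - i) i j (by
    have : (i : ℕ) < j := hlt
    omega) hij

theorem adj_anti {k : ℕ} (hk : q ≤ k) (hb : Monotone b) {d : Fin k → ℕ → ℕ}
    (hd : ∀ j i i', b i < b i' → d j (b i') < d j (b i)) {D : ℕ → ℕ} (hD : IsAdjoint b d D) :
    Antitone fun s => D (b s) := fun s s' h => by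
  have h1 := gw_anti hk hb hd h
  have h2 : (D (b s') : ℤ) ≤ D (b s) := by
    rw [hD, hD]
    exact h1
  exact_mod_cast h2

theorem adj_strict {k : ℕ} (hk : q < k) (hb : Monotone b) {d : Fin k → ℕ → ℕ}
    (hd : ∀ j i i', b i < b i' → d j (b i') < d j (b i)) {D : ℕ → ℕ} (hD : IsAdjoint b d D) :
    ∀ i j, b i < b j → D (b j) < D (b i) := fun i j h => by
  have h1 := gw_strict hk hb hd i j h
  have h2 : (D (b j) : ℤ) < D (b i) := by
    rw [hD, hD]
    exact h1
  exact_mod_cast h2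

/-- The adjoint line bundle has nonnegative weights. -/
theorem exists_adj {k : ℕ} (hk : q ≤ k) (hb : Monotone b) {d : Fin k → ℕ → ℕ}
    (hd : ∀ j i i', b i < b i' → d j (b i') < d j (b i)) : ∃ D, IsAdjoint b d D := by
  classical
  have h0 : ∀ i, 0 ≤ gw b d i := fun i => by
    have hq : 0 < q := Nat.lt_of_le_of_lt (Nat.zero_le _) i.2
    set s : Fin q := ⟨q - 1, by omega⟩ with hs
    have h1 : i ≤ s := by
      rw [Fin.le_def, hs]
      have := i.2
      simp only
      omega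
    refine le_trans ?_ (gw_anti hk hb hd h1)
    have h2 : (Finset.univ.filter fun m => b s < b m) = ∅ := by
      rw [Finset.eq_empty_iff_forall_notMem]
      intro m hm
      have h3 : m ≤ s := by
        rw [Fin.le_def, hs]
        have := m.2
        simp only
        omega
      exact absurd (hb h3) (not_le.2 (Finset.mem_filter.1 hm).2)
    rw [gw, FL.anti, h2, Finset.card_empty]
    have h4 : (0 : ℤ) ≤ ∑ j, (d j (b s) : ℤ) := Finset.sum_nonneg fun j _ => Int.natCast_nonneg _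
    have h5 : (0 : ℤ) ≤ ((Finset.univ.filter fun m => b m < b s).card : ℤ) := Int.natCast_nonneg _
    push_cast
    linarith
  refine ⟨fun l => if h : ∃ i, b i = l then (gw b d h.choose).toNat else 0, fun i => ?_⟩
  have h1 : ∃ i', b i' = b i := ⟨i, rfl⟩
  beta_reduce
  rw [dif_pos h1, Int.toNat_of_nonneg (h0 _), gw_congr d h1.choose_spec]
  rfl

/-! ### The line bundles on the base -/

theorem fam (H3 : S_match) {k : ℕ} {d : Fin k → ℕ → ℕ}
    {M : Fin k → LB X} (hd : ∀ j i i', b i < b i' → d j (b i') < d j (b i))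
    (hA : ∀ j (w : Equiv.Perm (Fin q)), IsAmple (vw (M j) c fun i => (d j (b (w i)) : ℤ)))
    {Pic : Subgroup (LB X)} (hM : ∀ j, M j ∈ Pic) (hc : ∀ i, c i ∈ Pic)
    {π : Fin k → Equiv.Perm (Fin q)} (hπ : ∀ j i, π j (π j i) = i) (w : Equiv.Perm (Fin q))
    (κ : LB X) : ∃ A : Fin k → LB X, (∀ j, A j ∈ Pic ∧ IsAmple (A j)) ∧
      κ * ∏ j, A j = vw (κ * ∏ j, M j) c fun r =>
        ∑ j, ((d j (b (w.symm r)) : ℤ) + sg (b (w.symm r)) (b (π j (w.symm r)))) := by
  refine ⟨fun j => vw (M j) c fun r => (d j (b (w.symm r)) : ℤ) +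
    sg (b (w.symm r)) (b (π j (w.symm r))), fun j => ⟨vw_mem (hM j) hc _, ?_⟩, vw_prod κ M _⟩
  exact H3 (l := fun i => (d j (b i) : ℤ)) (fun i i' h => by exact_mod_cast hd j i i' h)
    (fun w => hA j w) (π j) (hπ j) w.symm

theorem sg_self (a : ℕ) : sg a a = 0 := by
  rw [sg, if_neg (lt_irrefl _), if_neg (lt_irrefl _)]

/-- Global generation of the adjoint line bundles. -/
theorem gg_adj (H1 : S_fix) (H2 : S_strict) (H3 : S_match) (H6 : S_col) (hb : Monotone b)
    {Pic : Subgroup (LB X)} (hc : ∀ i, c i ∈ Pic) (κ : LB X)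
    {k : ℕ} (hk : q ≤ k) {d : Fin k → ℕ → ℕ} {M : Fin k → LB X} (hM : ∀ j, M j ∈ Pic)
    (h : ∀ j, AmpleF b c (d j) (M j)) {D : ℕ → ℕ} (hD : IsAdjoint b d D)
    (hX : ∀ A : Fin k → LB X, (∀ j, A j ∈ Pic ∧ IsAmple (A j)) → GG (κ * ∏ j, A j)) :
    GGF b c D (κ * ∏ j, M j) := by
  intro i z hz g hg
  obtain ⟨w, hw⟩ := FL.exists_perm g hg
  have hd : ∀ j i i', b i < b i' → d j (b i') < d j (b i) := fun j i i' => H2 (h j) hz i i'
  have hA : ∀ j (w : Equiv.Perm (Fin q)), IsAmple (vw (M j) c fun i => (d j (b (w i)) : ℤ)) :=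
    fun j w => H1 (h j) w.symm
  obtain ⟨π, hπ, hs, -⟩ := H6 hk
  obtain ⟨A, hA1, hA2⟩ := fam H3 hd hA hM hc hπ w κ
  obtain ⟨f, hf, hf0⟩ := hX A hA1 i z hz
  have hanti := adj_anti hk hb hd hD
  have e1 : (fun r => ∑ j, ((d j (b (w.symm r)) : ℤ) + sg (b (w.symm r)) (b (π j (w.symm r)))))
      = fun r => (D (b (w.symm r)) : ℤ) := by
    funext r
    rw [hD, Finset.sum_add_distrib, hs b (w.symm r)]
    ring
  rw [hA2, e1] at hf
  refine ⟨_, mk_sec (FL.semi_pr hb hanti (d := D) (fun _ => rfl) w)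
    (fun a _ g => left_pr' hanti w a g) hf, ?_⟩
  rw [ev_mul', ev_C, FL.ev_pr]
  exact mul_ne_zero hf0 (Finset.prod_ne_zero_iff.2 fun k hk =>
    pow_ne_zero _ (hw _ (Finset.mem_range.1 hk)))

end Q47.FF
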