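import Pool.Agent.Q47.FF.Strict
import Pool.Agent.Q47.FF.Match
import Pool.Agent.Q65.FF.TLU

/-!
# The remaining lemmas
-/

set_option autoImplicit false

namespace Q47.FF

theorem t_lu : S_LU := Pool.Agent.Q65.FF.t_J4

theorem t_tlu : S_TLU := Pool.Agent.Q65.FF.t_J5

end Q47.FF
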