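import Pool.Agent.Q47.FF.Stm
import Pool.Agent.Q47.FJ.Red

/-!
# Sections of line bundles on flag bundles
-/

set_option autoImplicit false

namespace Q47.FF

open MvPolynomial Q47.FJ

section Poly

variable {q : ℕ}

theorem ev_add (g : Matrix (Fin q) (Fin q) ℂ) (p p' : MvPolynomial (Fin q × Fin q) ℂ) :
    FL.ev g (p + p') = FL.ev g p + FL.ev g p' := map_add _ _ _

theorem ev_sub (g : Matrix (Fin q) (Fin q) ℂ) (p p' : MvPolynomial (Fin q × Fin q) ℂ) :
    FL.ev g (p - p') = FL.ev g p - FL.ev g p' := map_sub _ _ _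

theorem ev_mul' (g : Matrix (Fin q) (Fin q) ℂ) (p p' : MvPolynomial (Fin q × Fin q) ℂ) :
    FL.ev g (p * p') = FL.ev g p * FL.ev g p' := map_mul _ _ _

theorem ev_C (g : Matrix (Fin q) (Fin q) ℂ) (a : ℂ) : FL.ev g (C a) = a := eval_C _

theorem semi_mul {b : Fin q → ℕ} {d d' e : ℕ → ℕ} {p p' : MvPolynomial (Fin q × Fin q) ℂ}
    (h : FL.IsSemiInvariant b d p) (h' : FL.IsSemiInvariant b d' p')
    (he : ∀ j, e (b j) = d (b j) + d' (b j)) : FL.IsSemiInvariant b e (p * p') where
  scale g j t := by rw [ev_mul', ev_mul', h.scale, h'.scale, he, pow_add]; ring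
  shear g j k t hjk hb := by rw [ev_mul', ev_mul', h.shear g j k t hjk hb, h'.shear g j k t hjk hb]

theorem semi_C_mul {b : Fin q → ℕ} {d : ℕ → ℕ} {p : MvPolynomial (Fin q × Fin q) ℂ}
    (h : FL.IsSemiInvariant b d p) (a : ℂ) : FL.IsSemiInvariant b d (C a * p) where
  scale g j t := by rw [ev_mul', ev_mul', h.scale, ev_C, ev_C]; ring
  shear g j k t hjk hb := by rw [ev_mul', ev_mul', h.shear g j k t hjk hb, ev_C, ev_C]

theorem semi_sub {b : Fin q → ℕ} {d : ℕ → ℕ} {p p' : MvPolynomial (Fin q × Fin q) ℂ}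
    (h : FL.IsSemiInvariant b d p) (h' : FL.IsSemiInvariant b d p') :
    FL.IsSemiInvariant b d (p - p') where
  scale g j t := by rw [ev_sub, ev_sub, h.scale, h'.scale]; ring
  shear g j k t hjk hb := by rw [ev_sub, ev_sub, h.shear g j k t hjk hb, h'.shear g j k t hjk hb]

/-- The first columns. -/
theorem lt_nb {b : Fin q → ℕ} (hb : Monotone b) (k j : Fin q) : (k : ℕ) < nb b j ↔ b k ≤ b j := by
  classical
  rw [nb]
  constructor
  · intro h
    by_contra hcon
    have h1 : (Finset.univ.filter fun m => b m ≤ b j) ⊆ Finset.Iio k := by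
      intro m hm
      rw [Finset.mem_filter] at hm
      rw [Finset.mem_Iio]
      by_contra h2
      exact hcon ((hb (not_lt.1 h2)).trans hm.2)
    have h2 := Finset.card_le_card h1
    rw [Fin.card_Iio] at h2
    omega
  · intro h
    have h1 : Finset.Iic k ⊆ Finset.univ.filter fun m => b m ≤ b j := by
      intro m hm
      rw [Finset.mem_Iic] at hm
      exact Finset.mem_filter.2 ⟨Finset.mem_univ _, (hb hm).trans h⟩
    have h2 := Finset.card_le_card h1
    rw [Fin.card_Iic] at h2
    omega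

theorem nb_le (b : Fin q → ℕ) (j : Fin q) : nb b j ≤ q := by
  rw [nb]
  exact (Finset.card_le_univ _).trans (by rw [Fintype.card_fin])

/-- The minors of the first columns of the blocks. -/
theorem semi_mn {b : Fin q → ℕ} (hb : Monotone b) (w : Fin q → Fin q) (j : Fin q) :
    FL.IsSemiInvariant b (fun l => if l ≤ b j then 1 else 0) (FL.mn w (nb b j)) where
  scale g k t := by
    rw [FL.ev_mn, FL.ev_mn, FL.mnv_scale]
    by_cases h : b k ≤ b j
    · rw [if_pos ((lt_nb hb k j).2 h), if_pos h, pow_one]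
    · rw [if_neg fun h' => h ((lt_nb hb k j).1 h'), if_neg h, pow_zero]
  shear g k l t hkl hbkl := by
    rw [FL.ev_mn, FL.ev_mn, FL.mnv_shear g w _ t hkl]
    intro h
    exact (lt_nb hb k j).2 (hbkl.trans ((lt_nb hb l j).1 h))

/-- The weights with one column block removed. -/
def sh (b : Fin q → ℕ) (D : ℕ → ℕ) (j : Fin q) (l : ℕ) : ℕ := D l - if l ≤ b j then 1 else 0

theorem pr_split {b : Fin q → ℕ} (hb : Monotone b) {D : ℕ → ℕ}
    (hD : ∀ i j, b i < b j → D (b j) < D (b i)) (w : Equiv.Perm (Fin q)) {i j : Fin q}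
    (hij : b j < b i) : FL.pr w (fun s => D (b s)) =
      FL.mn w (nb b j) * FL.pr w (fun s => sh b D j (b s)) := by
  have hn : nb b j < q := by
    have h1 : ¬ (i : ℕ) < nb b j := fun h => absurd ((lt_nb hb i j).1 h) (not_le.2 hij)
    have := i.2
    omega
  have hjn : (j : ℕ) < nb b j := (lt_nb hb j j).2 le_rfl
  set n := nb b j with hn'
  have h1 : FL.mn w n = ∏ k ∈ Finset.range q, if k + 1 = n then FL.mn w (k + 1) else 1 := by
    rw [Finset.prod_eq_single (n - 1)]
    · rw [if_pos (by omega)]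
      congr 1
      omega
    · intro k _ hk
      rw [if_neg (by omega)]
    · intro h
      exact absurd (Finset.mem_range.2 (by omega)) h
  rw [FL.pr, FL.pr, h1, ← Finset.prod_mul_distrib]
  refine Finset.prod_congr rfl fun k hk => ?_
  have hk := Finset.mem_range.1 hk
  have hpos : ∀ s : Fin q, (s : ℕ) < n → 1 ≤ D (b s) := fun s hs => by
    have := hD s i (((lt_nb hb s j).1 hs).trans_lt hij)
    omega
  have e1 : FL.ex (fun s => D (b s)) k = D (b ⟨k, hk⟩) := by rw [FL.ex, dif_pos hk]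
  have e2 : FL.ex (fun s => sh b D j (b s)) k = D (b ⟨k, hk⟩) - if k < n then 1 else 0 := by
    rw [FL.ex, dif_pos hk, sh]
    congr 1
    exact if_congr (lt_nb hb ⟨k, hk⟩ j).symm rfl rfl
  rw [e1, e2]
  by_cases hk1 : k + 1 < q
  · have e3 : FL.ex (fun s => D (b s)) (k + 1) = D (b ⟨k + 1, hk1⟩) := by rw [FL.ex, dif_pos hk1]
    have e4 : FL.ex (fun s => sh b D j (b s)) (k + 1)
        = D (b ⟨k + 1, hk1⟩) - if k + 1 < n then 1 else 0 := by
      rw [FL.ex, dif_pos hk1, sh]
      congr 1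
      exact if_congr (lt_nb hb ⟨k + 1, hk1⟩ j).symm rfl rfl
    rw [e3, e4]
    by_cases h2 : k + 1 = n
    · have h3 : D (b ⟨k + 1, hk1⟩) < D (b ⟨k, hk⟩) := by
        refine hD _ _ ?_
        have h4 : b ⟨k, hk⟩ ≤ b j := (lt_nb hb _ j).1 (by simp only; omega)
        have h5 : ¬ b ⟨k + 1, hk1⟩ ≤ b j := fun h => by
          have := (lt_nb hb ⟨k + 1, hk1⟩ j).2 h
          simp only at this
          omega
        omega
      rw [if_pos h2, if_pos (by omega), if_neg (by omega), ← pow_succ']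
      congr 1
      omega
    · rw [if_neg h2, one_mul]
      congr 1
      by_cases h3 : k + 1 < n
      · have h4 := hpos ⟨k + 1, hk1⟩ h3
        rw [if_pos (by omega), if_pos h3]
        omega
      · rw [if_neg (by omega), if_neg h3]
        omega
  · have e3 : FL.ex (fun s => D (b s)) (k + 1) = 0 := by rw [FL.ex, dif_neg hk1]
    have e4 : FL.ex (fun s => sh b D j (b s)) (k + 1) = 0 := by rw [FL.ex, dif_neg hk1]
    rw [e3, e4, if_neg (by omega), if_neg (by omega), one_mul]
    congr 1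

/-- The section next to the point. -/
noncomputable def nx (b : Fin q → ℕ) (D : ℕ → ℕ) (w : Equiv.Perm (Fin q)) (i j : Fin q) :
    MvPolynomial (Fin q × Fin q) ℂ :=
  FL.mn (ex w i j) (nb b j) * FL.pr w (fun s => sh b D j (b s))

theorem sh_anti {b : Fin q → ℕ} (hb : Monotone b) {D : ℕ → ℕ}
    (hD : ∀ i j, b i < b j → D (b j) < D (b i)) (j : Fin q) :
    Antitone fun s => sh b D j (b s) := by
  intro s s' hs
  rcases lt_or_eq_of_le (hb hs) with h | h
  · have h1 := hD s s' h
    simp only [sh]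
    split_ifs <;> omega
  · simp only [h, le_refl]

theorem semi_nx {b : Fin q → ℕ} (hb : Monotone b) {D : ℕ → ℕ}
    (hD : ∀ i j, b i < b j → D (b j) < D (b i)) (w : Equiv.Perm (Fin q)) {i j : Fin q}
    (hij : b j < b i) : FL.IsSemiInvariant b D (nx b D w i j) := by
  refine semi_mul (semi_mn hb _ j) (FL.semi_pr hb (sh_anti hb hD j) (d := sh b D j)
    (fun _ => rfl) w) fun k => ?_
  simp only [sh]
  by_cases h : b k ≤ b j
  · have := hD k i (h.trans_lt hij)
    rw [if_pos h]
    omega
  · rw [if_neg h]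
    omega

theorem left_nx {b : Fin q → ℕ} (hb : Monotone b) {D : ℕ → ℕ}
    (hD : ∀ i j, b i < b j → D (b j) < D (b i)) (w : Equiv.Perm (Fin q)) {i j : Fin q}
    (hij : b j < b i) (c : Fin q → ℂ) (hc : ∀ s, c s ≠ 0) (g : Matrix (Fin q) (Fin q) ℂ) :
    FL.ev (Matrix.of fun i j => c i * g i j) (nx b D w i j) =
      (∏ s, c (w s) ^ ((D (b s) : ℤ) - (if s = j then 1 else 0) + if s = i then 1 else 0)) *
        FL.ev g (nx b D w i j) := by
  classical
  rw [nx, ev_mul', ev_mul', FL.left_pr (sh_anti hb hD j), FL.ev_mn, FL.ev_mn, FL.mnv_left]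
  have h0 : ∏ s : {s : Fin q // (s : ℕ) < nb b j}, c (ex w i j (s : Fin q))
      = ∏ s, c (w s) ^ ((if b s ≤ b j then (1 : ℤ) else 0) - (if s = j then 1 else 0)
        + if s = i then 1 else 0) := by
    have h1 : ∏ s : {s : Fin q // (s : ℕ) < nb b j}, c (ex w i j (s : Fin q))
        = ∏ s : Fin q, if (s : ℕ) < nb b j then c (ex w i j s) else 1 := by
      rw [← Finset.prod_filter]
      exact (Finset.prod_subtype _ (fun x => by simp) fun s : Fin q => c (ex w i j s)).symm
    rw [h1, ← Equiv.prod_comp (Equiv.swap j i)]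
    refine Finset.prod_congr rfl fun s _ => ?_
    have h2 : ex w i j (Equiv.swap j i s) = w s := by rw [ex, Equiv.swap_apply_self]
    rw [h2]
    have hji : j ≠ i := fun h => by rw [h] at hij; exact lt_irrefl _ hij
    by_cases hsj : s = j
    · subst hsj
      rw [Equiv.swap_apply_left, if_neg fun h => absurd ((lt_nb hb i s).1 h) (not_le.2 hij),
        if_pos le_rfl, if_pos rfl, if_neg hji]
      norm_num
    · by_cases hsi : s = i
      · subst hsi
        rw [Equiv.swap_apply_right, if_pos ((lt_nb hb j j).2 le_rfl), if_neg (not_le.2 hij),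
          if_neg hsj, if_pos rfl]
        norm_num
      · rw [Equiv.swap_apply_of_ne_of_ne hsj hsi, if_neg hsj, if_neg hsi, sub_zero, add_zero]
        by_cases h : b s ≤ b j
        · rw [if_pos ((lt_nb hb s j).2 h), if_pos h, zpow_one]
        · rw [if_neg fun h' => h ((lt_nb hb s j).1 h'), if_neg h, zpow_zero]
  rw [h0, mul_mul_mul_comm, ← Finset.prod_mul_distrib]
  congr 1
  refine Finset.prod_congr rfl fun s _ => ?_
  rw [← zpow_natCast, ← zpow_add₀ (hc _)]
  congr 1
  simp only [sh]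
  by_cases h : b s ≤ b j
  · have h1 := hD s i (h.trans_lt hij)
    simp only [if_pos h]
    push_cast [Nat.cast_sub (show 1 ≤ D (b s) by omega)]
    ring
  · simp only [if_neg h, Nat.sub_zero]
    ring

end Poly

end Q47.FF
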