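import Pool.Agent.Q47.FF.Defs
import Pool.Agent.Q47.FL.Minor
import Pool.Agent.Q47.FJ.Sec

/-!
# Flag bundles: statements of the lemmas
-/

set_option autoImplicit false

namespace Q47.FF

open MvPolynomial Q47.FJ

/-- The line bundle `M ⊗ ∏ c_i ^ (- ν_i)` on the base. -/
noncomputable def vw {E : Type*} [NormedAddCommGroup E] [NormedSpace ℂ E] {I K : Type*}
    {X : Atlas E I K} {q : ℕ} (M : LB X) (c : Fin q → LB X) (ν : Fin q → ℤ) : LB X :=
  M * (∏ i, c i ^ ν i)⁻¹

/-- The contribution of a pair of indices. -/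
def sg (a b : ℕ) : ℤ := if a < b then -1 else if b < a then 1 else 0

/-- The number of the columns up to the block of `j`. -/
def nb {q : ℕ} (b : Fin q → ℕ) (j : Fin q) : ℕ := (Finset.univ.filter fun k => b k ≤ b j).card

/-- The rows `w`, with the row number `j` replaced by the row number `i`. -/
def ex {q : ℕ} (w : Equiv.Perm (Fin q)) (i j : Fin q) : Fin q → Fin q :=
  fun s => w (Equiv.swap j i s)

/-- J1: ample line bundles on `Y` are ample on the sections given by the permutations. -/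
def S_fix : Prop :=
  ∀ {E : Type} [NormedAddCommGroup E] [NormedSpace ℂ E] {I K : Type} {X : Atlas E I K} {q : ℕ}
    {b : Fin q → ℕ} {c : Fin q → LB X} {d : ℕ → ℕ} {M : LB X}, AmpleF b c d M →
    ∀ w : Equiv.Perm (Fin q), IsAmple (vw M c fun i => (d (b (w.symm i)) : ℤ))

/-- J2: the weights of ample line bundles are strictly dominant. -/
def S_strict : Prop :=
  ∀ {E : Type} [NormedAddCommGroup E] [NormedSpace ℂ E] {I K : Type} {X : Atlas E I K} {q : ℕ}
    {b : Fin q → ℕ} {c : Fin q → LB X} {d : ℕ → ℕ} {M : LB X}, AmpleF b c d M →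
    ∀ {i₀ : I} {z₀ : E}, z₀ ∈ X.U i₀ → ∀ i j : Fin q, b i < b j → d (b j) < d (b i)

/-- J3: the root shifts along an involution. -/
def S_match : Prop :=
  ∀ {E : Type} [NormedAddCommGroup E] [NormedSpace ℂ E] {I K : Type} {X : Atlas E I K} {q : ℕ}
    {b : Fin q → ℕ} {c : Fin q → LB X} {M : LB X} {l : Fin q → ℤ},
    (∀ i j, b i < b j → l j < l i) → (∀ w : Equiv.Perm (Fin q), IsAmple (vw M c fun i => l (w i))) →
    ∀ π : Equiv.Perm (Fin q), (∀ i, π (π i) = i) → ∀ w : Equiv.Perm (Fin q),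
      IsAmple (vw M c fun i => l (w i) + sg (b (w i)) (b (π (w i))))

/-- J4: the decomposition of a matrix with nonzero minors. -/
def S_LU : Prop :=
  ∀ {q : ℕ} {b : Fin q → ℕ}, Monotone b → ∀ (g : Matrix (Fin q) (Fin q) ℂ)
    (w : Equiv.Perm (Fin q)), (∀ j, FL.mnv g w (nb b j) ≠ 0) →
    ∃ p : Matrix (Fin q) (Fin q) ℂ, p.det ≠ 0 ∧ IsP b p ∧ ∀ i j, (g * p) (w i) j =
      if b j < b i then FL.mnv g (ex w i j) (nb b j) / FL.mnv g w (nb b j)
      else if i = j then 1 else 0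

/-- J5: the infinitesimal form of the decomposition. -/
def S_TLU : Prop :=
  ∀ {q : ℕ} {b : Fin q → ℕ}, Monotone b → ∀ (g ξ : Matrix (Fin q) (Fin q) ℂ)
    (w : Equiv.Perm (Fin q)), g.det ≠ 0 → (∀ j, FL.mnv g w (nb b j) ≠ 0) →
    (∀ i j, b j < b i →
      FL.mnv g w (nb b j) * deriv (fun t : ℂ => FL.mnv (g + t • ξ) (ex w i j) (nb b j)) 0 =
        FL.mnv g (ex w i j) (nb b j) * deriv (fun t : ℂ => FL.mnv (g + t • ξ) w (nb b j)) 0) →
    ∃ τ, IsP b τ ∧ ξ = g * τ

/-- J6: the colouring of the pairs of indices by matchings. -/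
def S_col : Prop :=
  ∀ {q k : ℕ}, q ≤ k → ∃ π : Fin k → Equiv.Perm (Fin q), (∀ j i, π j (π j i) = i) ∧
    (∀ (b : Fin q → ℕ) (i : Fin q), ∑ j, sg (b i) (b (π j i)) = -FL.anti b i) ∧
    (q < k → ∃ j₀, π j₀ = 1)

end Q47.FF
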