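import Pool.Agent.Q47.FF.Va
import Mathlib.Analysis.Complex.Liouville

/-!
# The weights of ample line bundles are strictly dominant
-/

set_option autoImplicit false

namespace Q47.FF

open MvPolynomial Q47.FJ

section

variable {q : ℕ}

theorem continuous_ev (p : MvPolynomial (Fin q × Fin q) ℂ) :
    Continuous fun g : Matrix (Fin q) (Fin q) ℂ => FL.ev g p := by
  have h1 : Continuous fun g : Matrix (Fin q) (Fin q) ℂ => fun x : Fin q × Fin q => g x.1 x.2 :=
    continuous_pi fun x => continuous_id.matrix_elem x.1 x.2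
  exact (MvPolynomial.continuous_eval p).comp h1

theorem differentiable_line (p : MvPolynomial (Fin q × Fin q) ℂ) (g ξ : Matrix (Fin q) (Fin q) ℂ) :
    Differentiable ℂ fun t : ℂ => FL.ev (g + t • ξ) p := by
  have h1 : (fun t : ℂ => FL.ev (g + t • ξ) p) = fun t : ℂ => ∑ α ∈ p.support,
      coeff α p * ∏ x : Fin q × Fin q, (g x.1 x.2 + t * ξ x.1 x.2) ^ α x := by
    funext t
    rw [FL.ev, eval_eq']
    rfl
  rw [h1]
  refine Differentiable.fun_sum fun α _ => (Differentiable.const_mul ?_ _)
  refine Differentiable.fun_finsetProd fun x _ => ?_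
  exact ((differentiable_const _).add (differentiable_id.mul_const _)).pow _

/-- The matrix with the columns `i`, `j` replaced. -/
def two (i j : Fin q) (u v : Fin q → ℂ) : Matrix (Fin q) (Fin q) ℂ :=
  ((1 : Matrix (Fin q) (Fin q) ℂ).updateCol i u).updateCol j v

theorem line_eq {b : Fin q → ℕ} {D : ℕ → ℕ} {p : MvPolynomial (Fin q × Fin q) ℂ}
    (hp : FL.IsSemiInvariant b D p) {i j : Fin q} (hij : b i < b j) {t : ℂ} (ht : t ≠ 0) :
    FL.ev ((1 : Matrix (Fin q) (Fin q) ℂ) + t • Matrix.single j i 1) p =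
      t ^ D (b i) * (-t⁻¹) ^ D (b j) *
        FL.ev (two i j (Pi.single j 1 + t⁻¹ • Pi.single i 1) (Pi.single i 1)) p := by
  have hne : i ≠ j := fun h => by rw [h] at hij; exact lt_irrefl _ hij
  rw [← hp.shear _ i j (-t⁻¹) hne hij.le, mul_assoc, ← hp.scale _ j, ← hp.scale _ i]
  congr 1
  ext r s
  simp only [Matrix.updateCol_apply, two, Matrix.add_apply, Matrix.smul_apply, Matrix.single_apply,
    Matrix.one_apply, smul_eq_mul, Pi.single_apply, Pi.add_apply, Pi.smul_apply]
  by_cases hs : s = j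
  · subst hs
    by_cases hr : r = i
    · subst hr
      simp [hne, hne.symm, ht]
    · by_cases hr2 : r = s
      · subst hr2
        simp [hne, hne.symm, ht]
      · simp [hne, hne.symm, hr, hr2, Ne.symm hr2, ht]
  · by_cases hs2 : s = i
    · subst hs2
      by_cases hr : r = s
      · subst hr
        simp [hne, hne.symm, ht]
      · by_cases hr2 : r = j
        · subst hr2
          simp [hne, hne.symm, hr, ht]
        · simp [hne, hne.symm, hr, hr2, Ne.symm hr2, ht]
    · simp [hs, hs2, Ne.symm hs2]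

theorem line_const {b : Fin q → ℕ} {D : ℕ → ℕ} {p : MvPolynomial (Fin q × Fin q) ℂ}
    (hp : FL.IsSemiInvariant b D p) {i j : Fin q} (hij : b i < b j) (hD : D (b i) ≤ D (b j))
    (t : ℂ) : FL.ev ((1 : Matrix (Fin q) (Fin q) ℂ) + t • Matrix.single j i 1) p =
      FL.ev ((1 : Matrix (Fin q) (Fin q) ℂ) + (0 : ℂ) • Matrix.single j i 1) p := by
  have hdiff := differentiable_line p (1 : Matrix (Fin q) (Fin q) ℂ) (Matrix.single j i 1)
  refine hdiff.apply_eq_apply_of_bounded ?_ t 0
  have hQ : Continuous fun s : ℂ =>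
      FL.ev (two i j (Pi.single j 1 + s • Pi.single i 1) (Pi.single i 1)) p := by
    refine (continuous_ev p).comp ?_
    refine continuous_matrix fun r s' => ?_
    simp only [two, Matrix.updateCol_apply, Pi.add_apply, Pi.smul_apply, smul_eq_mul]
    by_cases h1 : s' = j
    · simp only [if_pos h1]
      exact continuous_const
    · simp only [if_neg h1]
      by_cases h2 : s' = i
      · simp only [if_pos h2]
        exact continuous_const.add (continuous_id.mul continuous_const)
      · simp only [if_neg h2]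
        exact continuous_const
  obtain ⟨C₁, hC₁⟩ := (isCompact_closedBall (0 : ℂ) 1).exists_bound_of_continuousOn
    hdiff.continuous.continuousOn
  obtain ⟨C₂, hC₂⟩ := (isCompact_closedBall (0 : ℂ) 1).exists_bound_of_continuousOn hQ.continuousOn
  rw [isBounded_iff_forall_norm_le]
  refine ⟨max C₁ C₂, ?_⟩
  rintro _ ⟨s, rfl⟩
  by_cases hs : ‖s‖ ≤ 1
  · exact (hC₁ s (by simpa using hs)).trans (le_max_left _ _)
  · push Not at hs
    have hs0 : s ≠ 0 := fun h => by rw [h, norm_zero] at hs; linarith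
    have h1 : ‖s⁻¹‖ ≤ 1 := by
      rw [norm_inv]
      exact inv_le_one_of_one_le₀ hs.le
    beta_reduce
    rw [line_eq hp hij hs0, norm_mul, norm_mul, norm_pow, norm_pow, norm_neg, norm_inv]
    have h2 : ‖s‖ ^ D (b i) * ‖s‖⁻¹ ^ D (b j) ≤ 1 := by
      rw [inv_pow, ← div_eq_mul_inv]
      exact div_le_one_of_le₀ (pow_le_pow_right₀ hs.le hD) (by positivity)
    calc _ ≤ 1 * C₂ := mul_le_mul h2 (hC₂ _ (by simpa using h1)) (norm_nonneg _) zero_le_one
      _ ≤ max C₁ C₂ := by rw [one_mul]; exact le_max_right _ _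

end

theorem t_strict : S_strict := by
  intro E _ _ I K X q b c d M h i₀ z₀ hz₀ i j hij
  obtain ⟨N, hN, hva⟩ := h
  by_contra hcon
  push Not at hcon
  have h1 := hva.tan i₀ z₀ hz₀ 1 (by rw [Matrix.det_one]; exact one_ne_zero) 0
    (Matrix.single j i 1) fun F hF _ => by
      have h2 : (fun τ : ℂ => FL.ev ((1 : Matrix (Fin q) (Fin q) ℂ) + τ • Matrix.single j i 1)
          (F i₀ (z₀ + τ • (0 : E)))) = fun _ => FL.ev ((1 : Matrix (Fin q) (Fin q) ℂ) +
            (0 : ℂ) • Matrix.single j i 1) (F i₀ z₀) := by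
        funext τ
        rw [smul_zero, add_zero]
        exact line_const (hF.semi i₀ z₀ hz₀) hij (Nat.mul_le_mul_left N hcon) τ
      rw [dF, h2]
      exact deriv_const _ _
  obtain ⟨-, τ, hτ, he⟩ := h1
  rw [Matrix.one_mul] at he
  have h2 := hτ j i hij
  rw [← he, Matrix.single_apply_same] at h2
  exact one_ne_zero h2

end Q47.FF
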