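import Pool.Agent.Q47.FF.Red

/-!
# Adjoint line bundles on flag bundles: very ampleness
-/

set_option autoImplicit false

namespace Q47.FF

open MvPolynomial Q47.FJ

section Mat

variable {q : ℕ}

theorem mnv_full (g : Matrix (Fin q) (Fin q) ℂ) (w : Equiv.Perm (Fin q)) (hg : g.det ≠ 0) :
    FL.mnv g w q ≠ 0 := by
  let e : {i : Fin q // (i : ℕ) < q} ≃ Fin q := Equiv.subtypeUnivEquiv fun i => i.2
  have h3 : FL.mnv g w q = ((g.submatrix w id).submatrix e e).det := rfl
  rw [h3, Matrix.det_submatrix_equiv_self, Matrix.det_permute]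
  refine mul_ne_zero ?_ hg
  exact Int.cast_ne_zero (α := ℂ).2 (Units.ne_zero (Equiv.Perm.sign w))

/-- The derivative of a polynomial in the entries along a line. -/
theorem hasDerivAt_ev (p : MvPolynomial (Fin q × Fin q) ℂ) (g ξ : Matrix (Fin q) (Fin q) ℂ) :
    ∃ D, HasDerivAt (fun τ : ℂ => FL.ev (g + τ • ξ) p) D 0 :=
  ⟨_, hasDerivAt_eval p (fun x => g x.1 x.2) (fun x => ξ x.1 x.2)⟩

theorem IsP.mul {b : Fin q → ℕ} {p p' : Matrix (Fin q) (Fin q) ℂ} (h : IsP b p) (h' : IsP b p') :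
    IsP b (p * p') := by
  have h1 : Matrix.BlockTriangular p b := fun i j hij => h i j hij
  have h2 : Matrix.BlockTriangular p' b := fun i j hij => h' i j hij
  exact fun i j hij => (h1.mul h2) hij

theorem IsP.inv {b : Fin q → ℕ} {p : Matrix (Fin q) (Fin q) ℂ} (h : IsP b p) (hp : p.det ≠ 0) :
    IsP b p⁻¹ := by
  have h1 : Matrix.BlockTriangular p b := fun i j hij => h i j hij
  have : Invertible p := Matrix.invertibleOfIsUnitDet p (isUnit_iff_ne_zero.2 hp)
  exact fun i j hij => (Matrix.blockTriangular_inv_of_blockTriangular h1) hij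

/-- Two matrices with the same coordinates are equivalent. -/
theorem same_of_ratio (H4 : S_LU) {b : Fin q → ℕ} (hb : Monotone b)
    {g g' : Matrix (Fin q) (Fin q) ℂ} {w : Equiv.Perm (Fin q)}
    (hg : ∀ j, FL.mnv g w (nb b j) ≠ 0) (hg' : ∀ j, FL.mnv g' w (nb b j) ≠ 0)
    (h : ∀ i j, b j < b i → FL.mnv g (ex w i j) (nb b j) * FL.mnv g' w (nb b j) =
      FL.mnv g' (ex w i j) (nb b j) * FL.mnv g w (nb b j)) :
    ∃ p, p.det ≠ 0 ∧ IsP b p ∧ g' = g * p := by
  obtain ⟨p, hp, hpP, he⟩ := H4 hb g w hg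
  obtain ⟨p', hp', hpP', he'⟩ := H4 hb g' w hg'
  have h1 : g * p = g' * p' := by
    ext r j
    obtain ⟨i, rfl⟩ := w.surjective r
    rw [he, he']
    by_cases hij : b j < b i
    · rw [if_pos hij, if_pos hij, div_eq_div_iff (hg j) (hg' j)]
      exact h i j hij
    · rw [if_neg hij, if_neg hij]
  refine ⟨p * p'⁻¹, ?_, hpP.mul (hpP'.inv hp'), ?_⟩
  · rw [Matrix.det_mul, Matrix.det_nonsing_inv]
    refine mul_ne_zero hp ?_
    rw [Ring.inverse_eq_inv']
    exact inv_ne_zero hp'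
  · rw [← mul_assoc, h1, mul_assoc, Matrix.mul_nonsing_inv _ (isUnit_iff_ne_zero.2 hp'), mul_one]

end Mat

variable {E : Type} [NormedAddCommGroup E] [NormedSpace ℂ E] {I K : Type} {X : Atlas E I K}
  {q : ℕ} {b : Fin q → ℕ} {c : Fin q → LB X}

/-- The line bundles on the base for the neighbours. -/
theorem fam2 (H3 : S_match) (H6 : S_col) {k : ℕ} (hk : q < k) {d : Fin k → ℕ → ℕ}
    {M : Fin k → LB X} (hd : ∀ j i i', b i < b i' → d j (b i') < d j (b i))
    (hA : ∀ j (w : Equiv.Perm (Fin q)), IsAmple (vw (M j) c fun i => (d j (b (w i)) : ℤ)))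
    {Pic : Subgroup (LB X)} (hM : ∀ j, M j ∈ Pic) (hc : ∀ i, c i ∈ Pic) {D : ℕ → ℕ}
    (hD : IsAdjoint b d D) (w : Equiv.Perm (Fin q)) (κ : LB X) :
    (∃ A : Fin k → LB X, (∀ j, A j ∈ Pic ∧ IsAmple (A j)) ∧
      κ * ∏ j, A j = vw (κ * ∏ j, M j) c fun r => (D (b (w.symm r)) : ℤ)) ∧
    ∀ i j, b j < b i → ∃ A : Fin k → LB X, (∀ j, A j ∈ Pic ∧ IsAmple (A j)) ∧
      κ * ∏ j, A j = vw (κ * ∏ j, M j) c fun r => (D (b (w.symm r)) : ℤ) -
        (if w.symm r = j then 1 else 0) + if w.symm r = i then 1 else 0 := by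
  obtain ⟨π, hπ, hs, h0⟩ := H6 hk.le
  obtain ⟨j₀, hj₀⟩ := h0 hk
  refine ⟨?_, fun i j hij => ?_⟩
  · obtain ⟨A, hA1, hA2⟩ := fam H3 hd hA hM hc hπ w κ
    refine ⟨A, hA1, ?_⟩
    rw [hA2]
    congr 1
    funext r
    rw [hD, Finset.sum_add_distrib, hs b (w.symm r)]
    ring
  · classical
    have hji : j ≠ i := fun h => by rw [h] at hij; exact lt_irrefl _ hij
    obtain ⟨A, hA1, hA2⟩ := fam H3 hd hA hM hc (π := Function.update π j₀ (Equiv.swap i j))
      (fun m s => by
        by_cases hm : m = j₀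
        · rw [hm, Function.update_self, Equiv.swap_apply_self]
        · rw [Function.update_of_ne hm]
          exact hπ m s) w κ
    refine ⟨A, hA1, ?_⟩
    rw [hA2]
    congr 1
    funext r
    have h1 := hs b (w.symm r)
    rw [← Finset.add_sum_erase _ _ (Finset.mem_univ j₀), hj₀] at h1
    rw [hD, Finset.sum_add_distrib,
      ← Finset.add_sum_erase _ (fun x => sg (b (w.symm r))
        (b (Function.update π j₀ (Equiv.swap i j) x (w.symm r)))) (Finset.mem_univ j₀),
      Function.update_self]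
    have h2 : ∑ x ∈ Finset.univ.erase j₀, sg (b (w.symm r))
        (b (Function.update π j₀ (Equiv.swap i j) x (w.symm r)))
        = ∑ x ∈ Finset.univ.erase j₀, sg (b (w.symm r)) (b (π x (w.symm r))) :=
      Finset.sum_congr rfl fun x hx => by rw [Function.update_of_ne (Finset.ne_of_mem_erase hx)]
    rw [h2]
    rw [Equiv.Perm.one_apply, sg_self, zero_add] at h1
    rw [h1]
    by_cases hrj : w.symm r = j
    · rw [hrj, Equiv.swap_apply_right, if_pos rfl, if_neg hji, sg, if_pos hij]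
      ring
    · by_cases hri : w.symm r = i
      · rw [hri, Equiv.swap_apply_left, if_neg hji.symm, if_pos rfl, sg, if_neg (not_lt.2 hij.le),
          if_pos hij]
        ring
      · rw [Equiv.swap_apply_of_ne_of_ne hri hrj, if_neg hrj, if_neg hri, sg_self]
        ring

/-- Very ampleness of the adjoint line bundles. -/
theorem va_adj (H1 : S_fix) (H2 : S_strict) (H3 : S_match) (H4 : S_LU) (H5 : S_TLU) (H6 : S_col)
    (hb : Monotone b) {Pic : Subgroup (LB X)} (hc : ∀ i, c i ∈ Pic) (κ : LB X)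
    {k : ℕ} (hk : q < k) {d : Fin k → ℕ → ℕ} {M : Fin k → LB X} (hM : ∀ j, M j ∈ Pic)
    (h : ∀ j, AmpleF b c (d j) (M j)) {D : ℕ → ℕ} (hD : IsAdjoint b d D)
    (hX : ∀ A : Fin k → LB X, (∀ j, A j ∈ Pic ∧ IsAmple (A j)) → VA (κ * ∏ j, A j)) :
    VAF b c D (κ * ∏ j, M j) := by
  classical
  have hgg := gg_adj H1 H2 H3 H6 hb hc κ hk.le hM h hD fun A hA => (hX A hA).gg
  set N := κ * ∏ j, M j with hN
  have hA : ∀ j (w : Equiv.Perm (Fin q)), IsAmple (vw (M j) c fun i => (d j (b (w i)) : ℤ)) :=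
    fun j w => H1 (h j) w.symm
  -- the data at a point
  have dat : ∀ (i : I) (z : E), z ∈ X.U i → ∀ w : Equiv.Perm (Fin q),
      (∀ s s', b s < b s' → D (b s') < D (b s)) ∧
      VA (vw N c fun r => (D (b (w.symm r)) : ℤ)) ∧
      ∀ i j, b j < b i → VA (vw N c fun r => (D (b (w.symm r)) : ℤ) -
        (if w.symm r = j then 1 else 0) + if w.symm r = i then 1 else 0) := by
    intro i z hz w
    have hd : ∀ j i i', b i < b i' → d j (b i') < d j (b i) := fun j i i' => H2 (h j) hz i i'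
    obtain ⟨⟨A, hA1, hA2⟩, h2⟩ := fam2 H3 H6 hk hd hA hM hc hD w κ
    refine ⟨adj_strict hk hb hd hD, ?_, fun i j hij => ?_⟩
    · rw [← hA2]
      exact hX A hA1
    · obtain ⟨A', hA'1, hA'2⟩ := h2 i j hij
      rw [← hA'2]
      exact hX A' hA'1
  have hlast : ∀ g : Matrix (Fin q) (Fin q) ℂ, g.det ≠ 0 → ∀ w : Equiv.Perm (Fin q),
      (∀ i j, b j < b i → FL.mnv g w (nb b j) ≠ 0) → ∀ j, FL.mnv g w (nb b j) ≠ 0 := by
    intro g hg w hw j
    by_cases hj : ∃ i, b j < b i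
    · obtain ⟨i, hi⟩ := hj
      exact hw i j hi
    · push Not at hj
      have h1 : nb b j = q := by
        rw [nb, Finset.filter_true_of_mem fun m _ => hj m, Finset.card_univ, Fintype.card_fin]
      rw [h1]
      exact mnv_full g w hg
  refine ⟨hgg, fun i z hz g hg i' z' hz' g' hg' H => ?_, fun i z hz g hg w₁ ξ H => ?_⟩
  · obtain ⟨w, hw⟩ := FL.exists_perm g hg
    obtain ⟨hD', hVA, hVA'⟩ := dat i z hz w
    have hanti : Antitone fun s => D (b s) := by
      intro s s' hs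
      rcases lt_or_eq_of_le (hb hs) with h1 | h1
      · exact (hD' s s' h1).le
      · exact le_of_eq (congrArg D h1.symm)
    obtain ⟨μ, hμ, hprop⟩ := hgg.prop hz hg hz' hg' H
    set P := FL.pr w fun s => D (b s) with hP
    have hPg : FL.ev g P ≠ 0 := by
      rw [hP, FL.ev_pr]
      exact Finset.prod_ne_zero_iff.2 fun k hk => pow_ne_zero _ (hw _ (Finset.mem_range.1 hk))
    have hPsec : ∀ f : I → E → ℂ, IsSec (vw N c fun r => (D (b (w.symm r)) : ℤ)) f →
        IsSecF b c D N fun i z => C (f i z) * P := fun f hf =>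
      mk_sec (FL.semi_pr hb hanti (d := D) (fun _ => rfl) w) (fun a _ g => left_pr' hanti w a g) hf
    obtain ⟨f, hf, hf0⟩ := hVA.gg i z hz
    have e1 := hprop _ (hPsec f hf)
    rw [ev_mul', ev_mul', ev_C, ev_C] at e1
    have hPg' : FL.ev g' P ≠ 0 := fun h0 => by
      rw [h0, mul_zero] at e1
      exact mul_ne_zero hμ (mul_ne_zero hf0 hPg) e1.symm
    obtain ⟨k₀, h1, h2, h3, h4⟩ := hVA.pts i z hz i' z' hz' fun f' hf' hf'0 => by
      have e2 := hprop _ (hPsec f' hf')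
      rw [ev_mul', ev_mul', ev_C, ev_C, hf'0, zero_mul, mul_zero] at e2
      exact (mul_eq_zero.1 e2).resolve_right hPg'
    subst h1 h2 h4
    refine ⟨k₀, rfl, rfl, h3, rfl, ?_⟩
    set g₁ : Matrix (Fin q) (Fin q) ℂ := Matrix.of fun r s => (FJ.ev (c r) k₀ z)⁻¹ * g' r s with hg₁
    have hg'₁ : g' = trans c k₀ z g₁ := by
      ext r s
      rw [trans, hg₁, Matrix.of_apply, Matrix.of_apply, mul_inv_cancel_left₀ (ev_ne _ _ _)]
    -- comparison of the values
    have key : ∀ (Q : MvPolynomial (Fin q × Fin q) ℂ) (ν : Fin q → ℤ),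
        FL.IsSemiInvariant b D Q → (∀ a : Fin q → ℂ, (∀ s, a s ≠ 0) → ∀ g,
          FL.ev (Matrix.of fun i j => a i * g i j) Q = (∏ r, a r ^ ν r) * FL.ev g Q) →
        GG (vw N c ν) → FJ.ev N k₀ z * FL.ev g₁ Q = μ * FL.ev g Q := by
      intro Q ν hQ hl hGG
      obtain ⟨f', hf', hf'0⟩ := hGG _ z hz
      have e2 := hprop _ (mk_sec hQ hl hf')
      have h5 : ∏ r, FJ.ev (c r) k₀ z ^ ν r ≠ 0 :=
        Finset.prod_ne_zero_iff.2 fun i _ => zpow_ne_zero _ (ev_ne _ _ _)
      rw [ev_mul', ev_mul', ev_C, ev_C, hf'.eq k₀ z h3, ev_vw, hg'₁, trans,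
        hl _ (fun s => ev_ne _ _ _)] at e2
      refine mul_right_cancel₀ hf'0 ?_
      have e3 : FJ.ev N k₀ z * (∏ r, FJ.ev (c r) k₀ z ^ ν r)⁻¹ * f' (X.s k₀) z *
          ((∏ r, FJ.ev (c r) k₀ z ^ ν r) * FL.ev g₁ Q)
          = FJ.ev N k₀ z * FL.ev g₁ Q * f' (X.s k₀) z := by
        field_simp
      rw [e3] at e2
      rw [e2]
      ring
    have k1 : FJ.ev N k₀ z * FL.ev g₁ P = μ * FL.ev g P :=
      key P _ (FL.semi_pr hb hanti (d := D) (fun _ => rfl) w) (fun a _ g => left_pr' hanti w a g)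
        hVA.gg
    have hN0 := ev_ne N k₀ z
    have hPg₁ : FL.ev g₁ P ≠ 0 := fun h0 => by
      rw [h0, mul_zero] at k1
      exact mul_ne_zero hμ hPg k1.symm
    have hg₁d : g₁.det ≠ 0 := by
      intro h0
      apply hg'
      have h5 : g' = Matrix.of fun r s => FJ.ev (c r) k₀ z * g₁ r s := hg'₁
      rw [h5, Matrix.det_mul_column, h0, mul_zero]
    have hsplit : ∀ i j, b j < b i → ∀ g : Matrix (Fin q) (Fin q) ℂ, FL.ev g P =
        FL.mnv g w (nb b j) * FL.ev g (FL.pr w fun s => sh b D j (b s)) := by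
      intro i j hij g
      rw [hP, pr_split hb hD' w hij, ev_mul', FL.ev_mn]
    have hw₁ : ∀ j, FL.mnv g₁ w (nb b j) ≠ 0 := hlast g₁ hg₁d w fun i j hij h0 => by
      apply hPg₁
      rw [hsplit i j hij, h0, zero_mul]
    have hwg : ∀ j, FL.mnv g w (nb b j) ≠ 0 := fun j => hw _ (nb_le b j)
    obtain ⟨p, hp1, hp2, hp3⟩ := same_of_ratio H4 hb hwg hw₁ fun i j hij => by
      have k2 := key (nx b D w i j) _ (semi_nx hb hD' w hij)
        (fun a ha g => left_nx' hb hD' w hij a ha g) (hVA' i j hij).gg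
      rw [nx, ev_mul', ev_mul', FL.ev_mn, FL.ev_mn] at k2
      have k3 := k1
      have hR := hPg
      have hR₁ := hPg₁
      rw [hsplit i j hij] at hR hR₁
      rw [hsplit i j hij, hsplit i j hij] at k3
      have r1 := right_ne_zero_of_mul hR
      have r2 := right_ne_zero_of_mul hR₁
      generalize FL.ev g (FL.pr w fun s => sh b D j (b s)) = R at *
      generalize FL.ev g₁ (FL.pr w fun s => sh b D j (b s)) = R₁ at *
      generalize FL.mnv g w (nb b j) = m at *
      generalize FL.mnv g₁ w (nb b j) = m₁ at *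
      generalize FL.mnv g (ex w i j) (nb b j) = x at *
      generalize FL.mnv g₁ (ex w i j) (nb b j) = x₁ at *
      refine mul_left_cancel₀ (mul_ne_zero (mul_ne_zero hN0 hμ) (mul_ne_zero r1 r2)) ?_
      linear_combination (-(FJ.ev N k₀ z * m₁ * R₁)) * k2 + (FJ.ev N k₀ z * x₁ * R₁) * k3
    refine ⟨p, hp1, hp2, ?_⟩
    rw [hg'₁, hp3]
  · obtain ⟨w, hw⟩ := FL.exists_perm g hg
    obtain ⟨hD', hVA, hVA'⟩ := dat i z hz w
    have hanti : Antitone fun s => D (b s) := by
      intro s s' hs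
      rcases lt_or_eq_of_le (hb hs) with h1 | h1
      · exact (hD' s s' h1).le
      · exact le_of_eq (congrArg D h1.symm)
    set P := FL.pr w fun s => D (b s) with hP
    have hPg : FL.ev g P ≠ 0 := by
      rw [hP, FL.ev_pr]
      exact Finset.prod_ne_zero_iff.2 fun k hk => pow_ne_zero _ (hw _ (Finset.mem_range.1 hk))
    have hPsec : ∀ f : I → E → ℂ, IsSec (vw N c fun r => (D (b (w.symm r)) : ℤ)) f →
        IsSecF b c D N fun i z => C (f i z) * P := fun f hf =>
      mk_sec (FL.semi_pr hb hanti (d := D) (fun _ => rfl) w) (fun a _ g => left_pr' hanti w a g) hf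
    have hder : ∀ (Q : MvPolynomial (Fin q × Fin q) ℂ) (f : I → E → ℂ) (w₁ : E),
        DifferentiableAt ℂ (f i) z → ∀ D',
        HasDerivAt (fun τ : ℂ => FL.ev (g + τ • ξ) Q) D' 0 →
        HasDerivAt (fun τ : ℂ => FL.ev (g + τ • ξ) (C (f i (z + τ • w₁)) * Q))
          (fderiv ℂ (f i) z w₁ * FL.ev g Q + f i z * D') 0 := by
      intro Q f w₁ hf D' hD'
      have h2 : HasDerivAt (fun τ : ℂ => z + τ • w₁) w₁ 0 := by
        have h3 := ((hasDerivAt_id (0 : ℂ)).smul_const w₁).const_add z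
        rwa [one_smul] at h3
      have h4 : HasFDerivAt (f i) (fderiv ℂ (f i) z) (z + (0 : ℂ) • w₁) := by
        rw [zero_smul, add_zero]
        exact hf.hasFDerivAt
      have h5 := (h4.comp_hasDerivAt (0 : ℂ) h2).fun_mul hD'
      simp only [Function.comp_apply, zero_smul, add_zero] at h5
      refine h5.congr_of_eventuallyEq (Filter.Eventually.of_forall fun τ => ?_)
      beta_reduce
      rw [ev_mul', ev_C]
    obtain ⟨DP, hDP⟩ := hasDerivAt_ev P g ξ
    have hw₁ : w₁ = 0 := hVA.tan i z hz w₁ fun f hf hf0 => by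
      have e1 := H _ (hPsec f hf) (by rw [ev_mul', ev_C, hf0, zero_mul])
      rw [dF, (hder P f w₁ (hf.diff hz) _ hDP).deriv, hf0, zero_mul, add_zero] at e1
      exact (mul_eq_zero.1 e1).resolve_right hPg
    refine ⟨hw₁, ?_⟩
    subst hw₁
    obtain ⟨f, hf, hf0⟩ := hVA.gg i z hz
    have hdf := hder P f 0 (hf.diff hz) _ hDP
    refine H5 hb g ξ w hg (fun j => hw _ (nb_le b j)) fun i₁ j hij => ?_
    obtain ⟨f', hf', hf'0⟩ := (hVA' i₁ j hij).gg i z hz
    obtain ⟨DQ, hDQ⟩ := hasDerivAt_ev (nx b D w i₁ j) g ξ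
    have hdf' := hder (nx b D w i₁ j) f' 0 (hf'.diff hz) _ hDQ
    have hsec' := mk_sec (semi_nx hb hD' w hij) (fun a ha g => left_nx' hb hD' w hij a ha g) hf'
    set a := FL.ev g (C (f' i z) * nx b D w i₁ j) with ha
    set a' := FL.ev g (C (f i z) * P) with ha'
    have e1 := H _ ((hPsec f hf).comb hsec' a a') (by
      simp only [ev_sub, ev_mul', ev_C]
      rw [ha, ha']
      simp only [ev_mul', ev_C, mul_comm, sub_self])
    have e2 := (hdf.const_mul a).fun_sub (hdf'.const_mul a')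
    rw [dF] at e1
    have e3 : (fun τ : ℂ => FL.ev (g + τ • ξ) (C a * (C (f i (z + τ • (0 : E))) * P) -
        C a' * (C (f' i (z + τ • (0 : E))) * nx b D w i₁ j)))
        = fun τ : ℂ => a * FL.ev (g + τ • ξ) (C (f i (z + τ • (0 : E))) * P) -
          a' * FL.ev (g + τ • ξ) (C (f' i (z + τ • (0 : E))) * nx b D w i₁ j) := by
      funext τ
      rw [ev_sub, ev_mul' _ (C a), ev_mul' _ (C a'), ev_C, ev_C]
    rw [e3, e2.deriv, ha, ha'] at e1
    simp only [ev_mul', ev_C, map_zero, zero_mul, zero_add] at e1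
    -- the minors
    obtain ⟨Dm, hDm⟩ := hasDerivAt_ev (FL.mn w (nb b j)) g ξ
    obtain ⟨Dx, hDx⟩ := hasDerivAt_ev (FL.mn (ex w i₁ j) (nb b j)) g ξ
    obtain ⟨DR, hDR⟩ := hasDerivAt_ev (FL.pr w fun s => sh b D j (b s)) g ξ
    have hsplit : ∀ g : Matrix (Fin q) (Fin q) ℂ, FL.ev g P =
        FL.ev g (FL.mn w (nb b j)) * FL.ev g (FL.pr w fun s => sh b D j (b s)) := by
      intro g
      rw [hP, pr_split hb hD' w hij, ev_mul']
    have e4 : DP = Dm * FL.ev g (FL.pr w fun s => sh b D j (b s)) +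
        FL.ev g (FL.mn w (nb b j)) * DR := by
      have h5 := hDm.fun_mul hDR
      simp only [zero_smul, add_zero] at h5
      refine hDP.unique (h5.congr_of_eventuallyEq (Filter.Eventually.of_forall fun τ => ?_))
      exact hsplit _
    have e5 : DQ = Dx * FL.ev g (FL.pr w fun s => sh b D j (b s)) +
        FL.ev g (FL.mn (ex w i₁ j) (nb b j)) * DR := by
      have h5 := hDx.fun_mul hDR
      simp only [zero_smul, add_zero] at h5
      refine hDQ.unique (h5.congr_of_eventuallyEq (Filter.Eventually.of_forall fun τ => ?_))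
      beta_reduce
      rw [nx, ev_mul']
    have e6 : ∀ w' : Fin q → Fin q, (fun t : ℂ => FL.mnv (g + t • ξ) w' (nb b j))
        = fun t : ℂ => FL.ev (g + t • ξ) (FL.mn w' (nb b j)) := fun w' => by
      funext t
      rw [FL.ev_mn]
    rw [e6, e6, hDm.deriv, hDx.deriv, ← FL.ev_mn, ← FL.ev_mn]
    have hR : FL.ev g (FL.pr w fun s => sh b D j (b s)) ≠ 0 := by
      rw [hsplit] at hPg
      exact right_ne_zero_of_mul hPg
    rw [hsplit, e4, e5, nx, ev_mul'] at e1
    generalize FL.ev g (FL.pr w fun s => sh b D j (b s)) = R at *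
    generalize FL.ev g (FL.mn w (nb b j)) = m at *
    generalize FL.ev g (FL.mn (ex w i₁ j) (nb b j)) = x at *
    refine mul_left_cancel₀ (mul_ne_zero (mul_ne_zero hf0 hf'0) (mul_ne_zero hR hR)) ?_
    linear_combination -e1

end Q47.FF
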